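import Mathlib

set_option autoImplicit false

/-!
Facts on the rank (minimal number of generators) of a finite abelian group.
-/

namespace Pool.Agent.U358.ZG

open Finset

/-- images of a generating set span -/
theorem span_of_gen {Q : Type*} [AddCommGroup Q] {p k : ℕ}
    (φ : Q →+ (Fin k → ZMod p)) (hφ : Function.Surjective φ) (S : Set Q)
    (hS : AddSubgroup.closure S = ⊤) : Submodule.span (ZMod p) (φ '' S) = ⊤ := by
  rw [eq_top_iff]
  intro x _
  obtain ⟨q, rfl⟩ := hφ x
  have hq : q ∈ AddSubgroup.closure S := by rw [hS]; trivial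
  induction hq using AddSubgroup.closure_induction with
  | mem x hx => exact Submodule.subset_span ⟨x, hx, rfl⟩
  | zero => rw [map_zero]; exact Submodule.zero_mem _
  | add x y _ _ hx hy => rw [map_add]; exact Submodule.add_mem _ (hx trivial) (hy trivial)
  | neg x _ hx => rw [map_neg]; exact Submodule.neg_mem _ (hx trivial)

/-- a surjection onto `F_p^k` bounds the rank from below -/
theorem le_rank_of_surj {Q : Type*} [AddCommGroup Q] [Finite Q] {p k : ℕ} (hp : p.Prime)
    (φ : Q →+ (Fin k → ZMod p)) (hφ : Function.Surjective φ) : k ≤ AddGroup.rank Q := by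
  classical
  have := Fact.mk hp
  obtain ⟨S, hS1, hS2⟩ := AddGroup.rank_spec Q
  rw [← hS1]
  have h1 := span_of_gen φ hφ (S : Set Q) hS2
  have h2 : Module.finrank (ZMod p) (Submodule.span (ZMod p) ((S.image φ : Finset _) :
      Set (Fin k → ZMod p))) ≤ (S.image φ).card := finrank_span_finset_le_card (S.image φ)
  rw [Finset.coe_image, h1, finrank_top, Module.finrank_fin_fun] at h2
  exact h2.trans Finset.card_image_le

/-- a subfamily that is a basis -/
theorem exists_basis_family {Q : Type*} [AddCommGroup Q] {p k : ℕ} (hp : p.Prime)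
    (φ : Q →+ (Fin k → ZMod p)) (hφ : Function.Surjective φ) {ι : Type*} (f : ι → Q)
    (J : Finset ι) (hgen : AddSubgroup.closure (f '' (J : Set ι)) = ⊤) :
    ∃ D : Finset ι, D ⊆ J ∧ D.card = k ∧
      LinearIndepOn (ZMod p) (fun i => φ (f i)) (D : Set ι) := by
  classical
  have := Fact.mk hp
  obtain ⟨b, hb1, -, hb3, hb4⟩ := exists_linearIndepOn_extension (K := ZMod p)
    (v := fun i => φ (f i)) (linearIndepOn_empty (ZMod p) _) (Set.empty_subset (J : Set ι))
  have hbf : b.Finite := (J.finite_toSet).subset hb1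
  refine ⟨hbf.toFinset, ?_, ?_, ?_⟩
  · intro i hi
    exact hb1 (hbf.mem_toFinset.1 hi)
  · have h1 := span_of_gen φ hφ _ hgen
    have h2 : Submodule.span (ZMod p) ((fun i => φ (f i)) '' b) = ⊤ := by
      rw [eq_top_iff, ← h1, Submodule.span_le]
      rintro _ ⟨_, ⟨i, hi, rfl⟩, rfl⟩
      exact hb3 ⟨i, hi, rfl⟩
    have : Fintype b := hbf.fintype
    have h3 : Fintype.card b = Module.finrank (ZMod p)
        (Submodule.span (ZMod p) (Set.range (fun i : b => φ (f i)))) :=
      (finrank_span_eq_card hb4).symm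
    rw [← Set.image_eq_range (fun i => φ (f i)) b, h2, finrank_top, Module.finrank_fin_fun] at h3
    rw [← h3, Set.Finite.card_toFinset]
  · rw [hbf.coe_toFinset]; exact hb4

theorem exists_equiv_pi' {V : Type*} [AddCommGroup V] [Finite V] {p : ℕ} [Fact p.Prime]
    [Module (ZMod p) V] : ∃ k : ℕ, Nonempty (V ≃+ (Fin k → ZMod p)) := by
  have hfin : Module.Finite (ZMod p) V := Module.Finite.of_finite
  exact ⟨_, ⟨(Module.finBasis (ZMod p) V).equivFun.toAddEquiv⟩⟩

theorem exists_equiv_pi {V : Type*} [AddCommGroup V] [Finite V] {p : ℕ} (hp : p.Prime)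
    (h : ∀ x : V, p • x = 0) : ∃ k : ℕ, Nonempty (V ≃+ (Fin k → ZMod p)) := by
  have := Fact.mk hp
  let inst : Module (ZMod p) V := AddCommGroup.zmodModule h
  exact exists_equiv_pi'

/-- If all `p`-ranks are at most `t` then `t` elements generate. -/
theorem rank_le_of_forall {Q : Type*} [AddCommGroup Q] [Finite Q] {t : ℕ}
    (h : ∀ p : ℕ, p.Prime → ¬ ∃ φ : Q →+ (Fin (t + 1) → ZMod p), Function.Surjective φ) :
    AddGroup.rank Q ≤ t := by
  classical
  -- for each prime a family of `t` elements generating modulo `p`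
  have key : ∀ p : ℕ, p.Prime → ∃ a : Fin t → Q, ∀ x : Q, ∃ y : Q,
      x - p • y ∈ AddSubgroup.closure (Set.range a) := by
    intro p hp
    have := Fact.mk hp
    set N : AddSubgroup Q := (nsmulAddMonoidHom p : Q →+ Q).range with hN
    have hN' : ∀ x : Q, p • x ∈ N := fun x => ⟨x, rfl⟩
    have hz : ∀ x : Q ⧸ N, p • x = 0 := by
      intro x
      obtain ⟨y, rfl⟩ := QuotientAddGroup.mk_surjective x
      rw [← QuotientAddGroup.mk_nsmul, QuotientAddGroup.eq_zero_iff]
      exact hN' y
    obtain ⟨k, ⟨e⟩⟩ := exists_equiv_pi hp hz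
    have hkt : k ≤ t := by
      by_contra hcon
      push Not at hcon
      apply h p hp
      let π : (Fin k → ZMod p) →ₗ[ZMod p] (Fin (t + 1) → ZMod p) :=
        LinearMap.funLeft (ZMod p) (ZMod p) (Fin.castLE (by omega))
      refine ⟨(π.toAddMonoidHom.comp e.toAddMonoidHom).comp (QuotientAddGroup.mk' N), ?_⟩
      have h1 : Function.Surjective π :=
        LinearMap.funLeft_surjective_of_injective _ _ _ (Fin.castLE_injective _)
      exact (h1.comp e.surjective).comp (QuotientAddGroup.mk'_surjective N)
    choose a0 ha0 using fun i : Fin k =>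
      QuotientAddGroup.mk'_surjective N (e.symm (Pi.single i 1))
    refine ⟨fun i => if hi : i.1 < k then a0 ⟨i.1, hi⟩ else 0, fun x => ?_⟩
    set c := e (QuotientAddGroup.mk' N x) with hc
    have hx2 : QuotientAddGroup.mk' N (∑ i : Fin k, (c i).val • a0 i) =
        QuotientAddGroup.mk' N x := by
      rw [← e.symm_apply_apply (QuotientAddGroup.mk' N x), ← hc, map_sum]
      have h3 : c = ∑ i : Fin k, (c i).val • (Pi.single i (1 : ZMod p) : Fin k → ZMod p) := by
        funext j
        rw [Finset.sum_apply, Finset.sum_eq_single j]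
        · simp
        · intro i _ hij
          simp [Pi.single_eq_of_ne (Ne.symm hij)]
        · simp
      conv_rhs => rw [h3]
      rw [map_sum]
      refine Finset.sum_congr rfl fun i _ => ?_
      rw [map_nsmul, map_nsmul, ha0]
    rw [eq_comm, QuotientAddGroup.mk'_apply, QuotientAddGroup.mk'_apply, QuotientAddGroup.eq] at hx2
    obtain ⟨y, hy⟩ := hx2
    refine ⟨-y, ?_⟩
    have e1 : x - p • (-y) = ∑ i : Fin k, (c i).val • a0 i := by
      have : p • y = -x + ∑ i : Fin k, (c i).val • a0 i := hy
      rw [smul_neg, sub_neg_eq_add, this]; abel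
    rw [e1]
    refine AddSubgroup.sum_mem _ fun i _ => AddSubgroup.nsmul_mem _ (AddSubgroup.subset_closure ?_) _
    refine ⟨⟨i.1, lt_of_lt_of_le i.2 hkt⟩, ?_⟩
    simp
  -- combine
  choose! a ha using key
  set P := (Nat.card Q).primeFactors with hP
  let c : ℕ → ℕ := fun p => (∏ q ∈ P.erase p, q) ^ (p - 1)
  let x : Fin t → Q := fun j => ∑ p ∈ P, c p • a p j
  have hgen : AddSubgroup.closure (Set.range x) = ⊤ := by
    by_contra hne
    set C := AddSubgroup.closure (Set.range x) with hC
    have hfin : Finite (Q ⧸ C) := inferInstance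
    have hcard : Nat.card (Q ⧸ C) ≠ 1 := by
      intro h1
      apply hne
      rw [← AddSubgroup.index_eq_one, AddSubgroup.index_eq_card]
      exact h1
    obtain ⟨p, hp, hpd⟩ := Nat.exists_prime_and_dvd hcard
    have := Fact.mk hp
    obtain ⟨z, hz⟩ := exists_prime_addOrderOf_dvd_card' (G := Q ⧸ C) p hpd
    have hz0 : z ≠ 0 := by
      intro h0
      rw [h0, addOrderOf_zero] at hz
      exact hp.one_lt.ne hz
    have hpz : p • z = 0 := by rw [← hz]; exact addOrderOf_nsmul_eq_zero z
    -- multiplication by `p` is onto modulo `C`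
    have hpP : p ∈ P := by
      rw [hP, Nat.mem_primeFactors]
      refine ⟨hp, ?_, Nat.card_pos.ne'⟩
      exact hpd.trans (AddSubgroup.card_quotient_dvd_card C)
    have hcp : ∀ q ∈ P, q ≠ p → ∃ m : ℕ, c q = p * m := by
      intro q hq hqp
      have hq' : q.Prime := (Nat.mem_primeFactors.1 hq).1
      have h1 : p ∣ ∏ r ∈ P.erase q, r :=
        Finset.dvd_prod_of_mem _ (Finset.mem_erase.2 ⟨fun h => hqp h.symm, hpP⟩)
      have h2 : p ∣ c q := by
        refine h1.trans (dvd_pow_self _ ?_)
        have := hq'.two_le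
        omega
      exact h2
    have hcop : ¬ p ∣ ∏ r ∈ P.erase p, r := by
      intro hd
      obtain ⟨r, hr, hd⟩ := (Prime.dvd_finsetProd_iff hp.prime _).1 hd
      rw [Finset.mem_erase] at hr
      have hr' : r.Prime := (Nat.mem_primeFactors.1 hr.2).1
      exact hr.1 ((Nat.prime_dvd_prime_iff_eq hp hr').1 hd).symm
    have hcpp : ∃ m : ℕ, c p = 1 + p * m := by
      have h1 : ((∏ r ∈ P.erase p, r : ℕ) : ZMod p) ≠ 0 := by
        intro h0
        exact hcop ((ZMod.natCast_eq_zero_iff _ _).1 h0)
      have h2 := ZMod.pow_card_sub_one_eq_one h1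
      have h3 : ((c p : ℕ) : ZMod p) = ((1 : ℕ) : ZMod p) := by
        simp only [c, Nat.cast_pow, Nat.cast_one]
        exact h2
      rw [ZMod.natCast_eq_natCast_iff] at h3
      have h4 : 1 ≤ c p := by
        apply Nat.one_le_iff_ne_zero.2
        intro h0
        apply h1
        have : (∏ r ∈ P.erase p, r) = 0 := by
          by_contra hne0
          exact (pow_ne_zero _ hne0) h0
        rw [this, Nat.cast_zero]
      obtain ⟨m, hm⟩ := (Nat.modEq_iff_dvd' h4).1 h3.symm
      exact ⟨m, by omega⟩
    have hxa : ∀ j, ∃ y : Q, a p j - p • y ∈ C := by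
      intro j
      obtain ⟨m, hm⟩ := hcpp
      choose! m' hm' using hcp
      refine ⟨-(m • a p j + ∑ q ∈ P.erase p, m' q • a q j), ?_⟩
      have e1 : a p j - p • (-(m • a p j + ∑ q ∈ P.erase p, m' q • a q j)) = x j := by
        simp only [x]
        rw [← Finset.add_sum_erase P _ hpP, hm, smul_neg, sub_neg_eq_add, smul_add, add_smul,
          one_smul, Finset.smul_sum, mul_smul, add_assoc]
        congr 2
        refine Finset.sum_congr rfl fun q hq => ?_
        rw [Finset.mem_erase] at hq
        rw [hm' q hq.2 hq.1, mul_smul]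
      rw [e1]
      exact AddSubgroup.subset_closure ⟨j, rfl⟩
    have hsurj : Function.Surjective (fun u : Q ⧸ C => p • u) := by
      intro u
      obtain ⟨v, rfl⟩ := QuotientAddGroup.mk_surjective u
      obtain ⟨y, hy⟩ := ha p hp v
      -- the closure of `a p` is contained in `C + p Q`
      have hcl : ∀ w ∈ AddSubgroup.closure (Set.range (a p)), ∃ y : Q, w - p • y ∈ C := by
        intro w hw
        induction hw using AddSubgroup.closure_induction with
        | mem w hw => obtain ⟨j, rfl⟩ := hw; exact hxa j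
        | zero => exact ⟨0, by simp⟩
        | add w w' _ _ h1 h2 =>
          obtain ⟨y1, h1⟩ := h1
          obtain ⟨y2, h2⟩ := h2
          refine ⟨y1 + y2, ?_⟩
          have := AddSubgroup.add_mem _ h1 h2
          have e : w - p • y1 + (w' - p • y2) = w + w' - p • (y1 + y2) := by
            rw [smul_add]; abel
          rwa [e] at this
        | neg w _ h1 =>
          obtain ⟨y1, h1⟩ := h1
          refine ⟨-y1, ?_⟩
          have := AddSubgroup.neg_mem _ h1
          have e : -(w - p • y1) = -w - p • (-y1) := by rw [smul_neg]; abel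
          rwa [e] at this
      obtain ⟨y', hy'⟩ := hcl _ hy
      refine ⟨((y + y' : Q) : Q ⧸ C), ?_⟩
      show p • ((y + y' : Q) : Q ⧸ C) = (v : Q ⧸ C)
      rw [← QuotientAddGroup.mk_nsmul, QuotientAddGroup.eq]
      have e : -(p • (y + y')) + v = v - p • y - p • y' := by rw [smul_add]; abel
      rw [e]; exact hy'
    have hinj : Function.Injective (fun u : Q ⧸ C => p • u) := Finite.injective_iff_surjective.2 hsurj
    apply hz0
    apply hinj
    simp only [hpz, smul_zero]
  have h1 : (Finset.univ.image x : Set Q) = Set.range x := by simp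
  calc AddGroup.rank Q ≤ (Finset.univ.image x).card := by
        apply AddGroup.rank_le
        rw [h1]; exact hgen
    _ ≤ (Finset.univ : Finset (Fin t)).card := Finset.card_image_le
    _ = t := by simp

/-- The rank of a finite abelian group is attained modulo some prime. -/
theorem exists_prime_rank {Q : Type*} [AddCommGroup Q] [Finite Q] (hQ : 0 < AddGroup.rank Q) :
    ∃ p : ℕ, p.Prime ∧ ∃ φ : Q →+ (Fin (AddGroup.rank Q) → ZMod p), Function.Surjective φ := by
  by_contra hcon
  push Not at hcon
  obtain ⟨t, ht⟩ : ∃ t, AddGroup.rank Q = t + 1 := ⟨AddGroup.rank Q - 1, by omega⟩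
  have := rank_le_of_forall (Q := Q) (t := t) (by
    rintro p hp ⟨φ, hφ⟩
    rw [ht] at hcon
    exact hcon p hp φ hφ)
  omega

end Pool.Agent.U358.ZG
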