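import Mathlib
import Pool.Agent.U358.ZG.Rank

set_option autoImplicit false
set_option linter.unusedSectionVars false

/-!
A lower bound for the number of subset sums of a generating sequence in a finite abelian group.
-/

namespace Pool.Agent.U358.ZG

open Finset
open scoped Pointwise

variable {Q : Type*} [AddCommGroup Q] [DecidableEq Q] {ι : Type*} [DecidableEq ι]

/-- the set of all sums of the subfamilies of `f` on `J` -/
def SS (f : ι → Q) (J : Finset ι) : Finset Q := J.powerset.image (fun I => ∑ i ∈ I, f i)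

theorem mem_SS (f : ι → Q) (J : Finset ι) (x : Q) : x ∈ SS f J ↔ ∃ I ⊆ J, ∑ i ∈ I, f i = x := by
  simp [SS]

theorem SS_mono (f : ι → Q) {J J' : Finset ι} (h : J ⊆ J') : SS f J ⊆ SS f J' := by
  intro x hx
  rw [mem_SS] at hx ⊢
  obtain ⟨I, hI, rfl⟩ := hx
  exact ⟨I, hI.trans h, rfl⟩

theorem zero_mem_SS (f : ι → Q) (J : Finset ι) : (0 : Q) ∈ SS f J := by
  rw [mem_SS]
  exact ⟨∅, Finset.empty_subset _, Finset.sum_empty⟩

theorem mem_SS_insert (f : ι → Q) (J : Finset ι) (c : ι) (hc : c ∉ J) (x : Q) :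
    x ∈ SS f (insert c J) ↔ x ∈ SS f J ∨ x - f c ∈ SS f J := by
  simp only [mem_SS]
  constructor
  · rintro ⟨I, hI, rfl⟩
    by_cases h : c ∈ I
    · right
      refine ⟨I.erase c, ?_, ?_⟩
      · intro i hi
        rw [Finset.mem_erase] at hi
        exact (Finset.mem_insert.1 (hI hi.2)).resolve_left hi.1
      · rw [eq_sub_iff_add_eq, Finset.sum_erase_add _ _ h]
    · left
      refine ⟨I, ?_, rfl⟩
      intro i hi
      exact (Finset.mem_insert.1 (hI hi)).resolve_left (fun h' => h (h' ▸ hi))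
  · rintro (⟨I, hI, rfl⟩ | ⟨I, hI, hx⟩)
    · exact ⟨I, hI.trans (Finset.subset_insert _ _), rfl⟩
    · refine ⟨insert c I, Finset.insert_subset_insert _ hI, ?_⟩
      rw [Finset.sum_insert (fun h => hc (hI h)), hx]; abel

theorem SS_insert (f : ι → Q) (J : Finset ι) (c : ι) (hc : c ∉ J) :
    SS f (insert c J) = SS f J ∪ (f c +ᵥ SS f J) := by
  ext x
  rw [mem_SS_insert f J c hc, Finset.mem_union, Finset.mem_vadd_finset]
  constructor
  · rintro (h | h)
    · exact Or.inl h
    · exact Or.inr ⟨_, h, by simp⟩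
  · rintro (h | ⟨y, hy, rfl⟩)
    · exact Or.inl h
    · right; simpa using hy

/-- coefficients of a vanishing combination -/
theorem coef {p k : ℕ} (φ : Q →+ (Fin k → ZMod p)) (f : ι → Q) (D : Finset ι)
    (hD : LinearIndepOn (ZMod p) (fun i => φ (f i)) (D : Set ι)) (a : ι → ℤ)
    (h : φ (∑ i ∈ D, a i • f i) = 0) : ∀ i ∈ D, ((a i : ℤ) : ZMod p) = 0 := by
  rw [linearIndepOn_finset_iff] at hD
  apply hD (fun i => ((a i : ℤ) : ZMod p))
  rw [← h, map_sum]
  refine Finset.sum_congr rfl fun i _ => ?_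
  rw [map_zsmul, Int.cast_smul_eq_zsmul]

/-- the indicator function of a finite set, with integer values -/
def ind (I : Finset ι) (i : ι) : ℤ := if i ∈ I then 1 else 0

theorem ind_cases (I : Finset ι) (i : ι) : ind I i = 0 ∨ ind I i = 1 := by
  unfold ind; split_ifs <;> simp

theorem sum_eq_ind (f : ι → Q) (I D : Finset ι) (h : I ⊆ D) :
    ∑ i ∈ I, f i = ∑ i ∈ D, ind I i • f i := by
  unfold ind
  rw [← Finset.sum_subset h]
  · refine Finset.sum_congr rfl fun i hi => ?_
    rw [if_pos hi, one_smul]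
  · intro i _ hi
    rw [if_neg hi, zero_smul]

theorem eq_of_ind {I I' D : Finset ι} (h : I ⊆ D) (h' : I' ⊆ D)
    (he : ∀ i ∈ D, ind I i = ind I' i) : I = I' := by
  ext i
  by_cases hi : i ∈ D
  · have := he i hi
    unfold ind at this
    split_ifs at this with h1 h2 h2
    · exact ⟨fun _ => h2, fun _ => h1⟩
    · exact absurd this one_ne_zero
    · exact absurd this.symm one_ne_zero
    · exact ⟨fun h3 => absurd h3 h1, fun h3 => absurd h3 h2⟩
  · exact ⟨fun h3 => absurd (h h3) hi, fun h3 => absurd (h' h3) hi⟩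

theorem ind_eq_of_zmod {p : ℕ} (hp : p.Prime) {I I' : Finset ι} {i : ι}
    (h : ((ind I i - ind I' i : ℤ) : ZMod p) = 0) : ind I i = ind I' i := by
  rw [ZMod.intCast_zmod_eq_zero_iff_dvd] at h
  have h2 := hp.two_le
  have h3 : |ind I i - ind I' i| < (p : ℤ) := by
    have a1 := ind_cases I i
    have a2 := ind_cases I' i
    rw [abs_lt]
    omega
  have h4 := Int.eq_zero_of_abs_lt_dvd h h3
  omega

/-- subfamilies of an independent family have different sums, even after `φ` -/
theorem subset_eq_of_phi {p k : ℕ} (hp : p.Prime) (φ : Q →+ (Fin k → ZMod p)) (f : ι → Q)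
    (D : Finset ι) (hD : LinearIndepOn (ZMod p) (fun i => φ (f i)) (D : Set ι))
    {I I' : Finset ι} (h : I ⊆ D) (h' : I' ⊆ D)
    (he : φ (∑ i ∈ I, f i) = φ (∑ i ∈ I', f i)) : I = I' := by
  apply eq_of_ind h h'
  intro i hi
  apply ind_eq_of_zmod hp
  apply coef φ f D hD (fun i => ind I i - ind I' i) _ i hi
  have : ∑ i ∈ D, (ind I i - ind I' i) • f i = ∑ i ∈ I, f i - ∑ i ∈ I', f i := by
    rw [sum_eq_ind f I D h, sum_eq_ind f I' D h', ← Finset.sum_sub_distrib]
    exact Finset.sum_congr rfl fun i _ => sub_smul _ _ _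
  rw [this, map_sub, he, sub_self]

variable [Finite Q]

/-- the target alternative -/
def Big (f : ι → Q) (J : Finset ι) : Prop :=
  ∃ K : AddSubgroup Q, K ≠ ⊥ ∧ 2 ^ (AddGroup.rank (Q ⧸ K)) * Nat.card K ≤ (SS f J).card

theorem gen_quot (K : AddSubgroup Q) (f : ι → Q) (J : Finset ι)
    (hgen : AddSubgroup.closure (f '' (J : Set ι)) = ⊤) :
    AddSubgroup.closure ((fun i => (QuotientAddGroup.mk' K (f i))) '' (J : Set ι)) = ⊤ := by
  have h1 : (fun i => (QuotientAddGroup.mk' K (f i))) '' (J : Set ι) =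
      (QuotientAddGroup.mk' K) '' (f '' (J : Set ι)) := by
    rw [Set.image_image]
  rw [h1, ← AddMonoidHom.map_closure, hgen, ← AddMonoidHom.range_eq_map,
    AddMonoidHom.range_eq_top]
  exact QuotientAddGroup.mk'_surjective K

theorem exists_prime_rank' (R : Type*) [AddCommGroup R] [Finite R] :
    ∃ p : ℕ, p.Prime ∧ ∃ φ : R →+ (Fin (AddGroup.rank R) → ZMod p), Function.Surjective φ := by
  rcases Nat.eq_zero_or_pos (AddGroup.rank R) with h | h
  · refine ⟨2, Nat.prime_two, 0, ?_⟩
    intro x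
    refine ⟨0, ?_⟩
    funext i
    exact absurd i.2 (by omega)
  · exact exists_prime_rank h

/-- L1: periodic sets are big -/
theorem big_of_periodic (f : ι → Q) (J : Finset ι)
    (hgen : AddSubgroup.closure (f '' (J : Set ι)) = ⊤) (K : AddSubgroup Q) (hK : K ≠ ⊥)
    (hper : ∀ k ∈ K, ∀ x ∈ SS f J, k + x ∈ SS f J) : Big f J := by
  classical
  refine ⟨K, hK, ?_⟩
  obtain ⟨p, hp, ψ, hψ⟩ := exists_prime_rank' (Q ⧸ K)
  obtain ⟨D, hD1, hD2, hD3⟩ := exists_basis_family hp ψ hψ (fun i => QuotientAddGroup.mk' K (f i))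
    J (gen_quot K f J hgen)
  have := Fintype.ofFinite K
  have hcard : ((Finset.univ : Finset K) ×ˢ D.powerset).card =
      2 ^ (AddGroup.rank (Q ⧸ K)) * Nat.card K := by
    rw [Finset.card_product, Finset.card_univ, Finset.card_powerset, hD2, Nat.card_eq_fintype_card,
      mul_comm]
  rw [← hcard]
  apply Finset.card_le_card_of_injOn (fun x => (x.1 : Q) + ∑ i ∈ x.2, f i)
  · rintro ⟨k, I⟩ hx
    rw [Finset.mem_coe, Finset.mem_product, Finset.mem_powerset] at hx
    exact hper k k.2 _ ((mem_SS _ _ _).2 ⟨I, hx.2.trans hD1, rfl⟩)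
  · rintro ⟨k, I⟩ hx ⟨k', I'⟩ hx' he
    rw [Finset.mem_coe, Finset.mem_product, Finset.mem_powerset] at hx hx'
    simp only at he
    have h1 : I = I' := by
      apply subset_eq_of_phi hp ψ (fun i => QuotientAddGroup.mk' K (f i)) D hD3 hx.2 hx'.2
      rw [← map_sum, ← map_sum]
      congr 1
      rw [QuotientAddGroup.mk'_apply, QuotientAddGroup.mk'_apply, QuotientAddGroup.eq]
      have : -(∑ i ∈ I, f i) + ∑ i ∈ I', f i = (k : Q) - k' := by
        rw [← sub_eq_zero]
        rw [← sub_eq_zero] at he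
        rw [← neg_eq_zero] at he
        rw [← he]; abel
      rw [this]
      exact K.sub_mem k.2 k'.2
    subst h1
    have h2 : (k : Q) = k' := add_right_cancel he
    rw [Subtype.ext h2]

/-- L2: a full coset, and an odd prime for the quotient -/
theorem big_of_coset (f : ι → Q) (J : Finset ι)
    (hgen : AddSubgroup.closure (f '' (J : Set ι)) = ⊤) (K : AddSubgroup Q) (hK : K ≠ ⊥)
    (z : Q) (hz : ∀ k ∈ K, z + k ∈ SS f J) (p : ℕ) (hp : p.Prime) (hp2 : p ≠ 2)
    (ψ : Q ⧸ K →+ (Fin (AddGroup.rank (Q ⧸ K)) → ZMod p)) (hψ : Function.Surjective ψ) :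
    Big f J := by
  classical
  refine ⟨K, hK, ?_⟩
  obtain ⟨D, hD1, hD2, hD3⟩ := exists_basis_family hp ψ hψ (fun i => QuotientAddGroup.mk' K (f i))
    J (gen_quot K f J hgen)
  have := Fintype.ofFinite K
  choose T hT1 hT2 using fun k : K => (mem_SS f J (z + k)).1 (hz k k.2)
  have hcard : ((Finset.univ : Finset K) ×ˢ D.powerset).card =
      2 ^ (AddGroup.rank (Q ⧸ K)) * Nat.card K := by
    rw [Finset.card_product, Finset.card_univ, Finset.card_powerset, hD2, Nat.card_eq_fintype_card,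
      mul_comm]
  rw [← hcard]
  have hsum : ∀ (k : K) (I : Finset ι), I ⊆ D → ∑ i ∈ (T k \ D) ∪ I, f i =
      z + k + ∑ i ∈ D, (ind I i - ind (T k ∩ D) i) • f i := by
    intro k I hI
    rw [Finset.sum_union (Finset.disjoint_of_subset_right hI Finset.sdiff_disjoint)]
    have h1 : ∑ i ∈ T k \ D, f i = z + k - ∑ i ∈ T k ∩ D, f i := by
      rw [← hT2 k, eq_sub_iff_add_eq, add_comm, Finset.sum_inter_add_sum_sdiff]
    have h2 : ∑ i ∈ D, (ind I i - ind (T k ∩ D) i) • f i =
        ∑ i ∈ I, f i - ∑ i ∈ T k ∩ D, f i := by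
      rw [sum_eq_ind f I D hI, sum_eq_ind f (T k ∩ D) D Finset.inter_subset_right,
        ← Finset.sum_sub_distrib]
      exact Finset.sum_congr rfl fun i _ => sub_smul _ _ _
    rw [h1, h2]; abel
  apply Finset.card_le_card_of_injOn (fun x => ∑ i ∈ (T x.1 \ D) ∪ x.2, f i)
  · rintro ⟨k, I⟩ hx
    rw [Finset.mem_coe, Finset.mem_product, Finset.mem_powerset] at hx
    exact (mem_SS _ _ _).2 ⟨_, Finset.union_subset (Finset.sdiff_subset.trans (hT1 k))
      (hx.2.trans hD1), rfl⟩
  · rintro ⟨k, I⟩ hx ⟨k', I'⟩ hx' he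
    rw [Finset.mem_coe, Finset.mem_product, Finset.mem_powerset] at hx hx'
    simp only at he hx hx'
    rw [hsum k I hx.2, hsum k' I' hx'.2] at he
    have h0 : ∀ i ∈ D, ind I i - ind (T k ∩ D) i = ind I' i - ind (T k' ∩ D) i := by
      have h1 : ∀ i ∈ D, (((ind I i - ind (T k ∩ D) i) - (ind I' i - ind (T k' ∩ D) i) : ℤ) :
          ZMod p) = 0 := by
        apply coef ψ (fun i => QuotientAddGroup.mk' K (f i)) D hD3
          (fun i => (ind I i - ind (T k ∩ D) i) - (ind I' i - ind (T k' ∩ D) i))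
        have h2 : ∑ i ∈ D, ((ind I i - ind (T k ∩ D) i) - (ind I' i - ind (T k' ∩ D) i)) •
            QuotientAddGroup.mk' K (f i) = 0 := by
          have h3 : ∑ i ∈ D, ((ind I i - ind (T k ∩ D) i) - (ind I' i - ind (T k' ∩ D) i)) •
              QuotientAddGroup.mk' K (f i) = QuotientAddGroup.mk' K (∑ i ∈ D,
                (ind I i - ind (T k ∩ D) i) • f i - ∑ i ∈ D, (ind I' i - ind (T k' ∩ D) i) • f i)
              := by
            rw [map_sub, map_sum, map_sum, ← Finset.sum_sub_distrib]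
            refine Finset.sum_congr rfl fun i _ => ?_
            rw [sub_smul, map_zsmul, map_zsmul]
          rw [h3, QuotientAddGroup.mk'_apply, QuotientAddGroup.eq_zero_iff]
          have h4 : ∑ i ∈ D, (ind I i - ind (T k ∩ D) i) • f i -
              ∑ i ∈ D, (ind I' i - ind (T k' ∩ D) i) • f i = (k' : Q) - k := by
            rw [← sub_eq_zero] at he ⊢
            rw [← he]; abel
          rw [h4]
          exact K.sub_mem k'.2 k.2
        rw [h2, map_zero]
      intro i hi
      have h2 := h1 i hi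
      rw [ZMod.intCast_zmod_eq_zero_iff_dvd] at h2
      have hp3 : 3 ≤ p := by
        have := hp.two_le
        omega
      have h3 : |(ind I i - ind (T k ∩ D) i) - (ind I' i - ind (T k' ∩ D) i)| < (p : ℤ) := by
        have a1 := ind_cases I i
        have a2 := ind_cases I' i
        have a3 := ind_cases (T k ∩ D) i
        have a4 := ind_cases (T k' ∩ D) i
        rw [abs_lt]
        omega
      have h4 := Int.eq_zero_of_abs_lt_dvd h2 h3
      omega
    have h1 : (k : Q) = k' := by
      have h2 : ∑ i ∈ D, (ind I i - ind (T k ∩ D) i) • f i =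
          ∑ i ∈ D, (ind I' i - ind (T k' ∩ D) i) • f i :=
        Finset.sum_congr rfl fun i hi => by rw [h0 i hi]
      rw [h2] at he
      exact add_left_cancel (add_right_cancel he)
    have h2 : k = k' := Subtype.ext h1
    subst h2
    have h3 : I = I' := eq_of_ind hx.2 hx'.2 (fun i hi => by
      have := h0 i hi
      omega)
    rw [h3]

end Pool.Agent.U358.ZG
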