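import Mathlib
import Pool.Agent.U358.ZG.Core

set_option autoImplicit false
set_option linter.unusedSectionVars false

namespace Pool.Agent.U358.ZG

open Finset
open scoped Pointwise

variable {Q : Type*} [AddCommGroup Q] [DecidableEq Q] {ι : Type*} [DecidableEq ι] [Finite Q]

/-- all vectors are reached by the subsums of a basis modulo `2` -/
theorem exists_sub_phi {s : ℕ} (φ : Q →+ (Fin s → ZMod 2)) (f : ι → Q)
    (D : Finset ι) (hDs : D.card = s)
    (hD : LinearIndepOn (ZMod 2) (fun i => φ (f i)) (D : Set ι)) (v : Fin s → ZMod 2) :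
    ∃ I ⊆ D, φ (∑ i ∈ I, f i) = v := by
  classical
  have h1 : (D.powerset.image (fun I => φ (∑ i ∈ I, f i))).card = 2 ^ s := by
    rw [Finset.card_image_of_injOn, Finset.card_powerset, hDs]
    intro I hI I' hI' he
    rw [Finset.mem_coe, Finset.mem_powerset] at hI hI'
    exact subset_eq_of_phi Nat.prime_two φ f D hD hI hI' he
  have h2 : D.powerset.image (fun I => φ (∑ i ∈ I, f i)) = Finset.univ := by
    apply Finset.eq_univ_of_card
    rw [h1, Fintype.card_fun, Fintype.card_fin, ZMod.card]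
  have h3 : v ∈ D.powerset.image (fun I => φ (∑ i ∈ I, f i)) := by rw [h2]; exact Finset.mem_univ _
  rw [Finset.mem_image] at h3
  obtain ⟨I, hI, rfl⟩ := h3
  exact ⟨I, Finset.mem_powerset.1 hI, rfl⟩

/-- an element of the set of subset sums with prescribed image -/
theorem exists_elt {s : ℕ} (φ : Q →+ (Fin s → ZMod 2)) (f : ι → Q)
    (D J : Finset ι) (hDJ : D ⊆ J) (hDs : D.card = s)
    (hD : LinearIndepOn (ZMod 2) (fun i => φ (f i)) (D : Set ι)) (v : Fin s → ZMod 2)
    (y : Q) (hy : y ∈ SS f J) :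
    ∃ δ : ι → ℤ, (∀ i, δ i = -1 ∨ δ i = 0 ∨ δ i = 1) ∧ (y + ∑ i ∈ D, δ i • f i) ∈ SS f J ∧
      φ (y + ∑ i ∈ D, δ i • f i) = v := by
  obtain ⟨T, hT1, hT2⟩ := (mem_SS f J y).1 hy
  obtain ⟨I, hI1, hI2⟩ := exists_sub_phi φ f D hDs hD (v - φ (∑ i ∈ T \ D, f i))
  have h1 : y + ∑ i ∈ D, (ind I i - ind (T ∩ D) i) • f i = ∑ i ∈ (T \ D) ∪ I, f i := by
    rw [Finset.sum_union (Finset.disjoint_of_subset_right hI1 Finset.sdiff_disjoint)]
    have h1 : ∑ i ∈ T \ D, f i = y - ∑ i ∈ T ∩ D, f i := by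
      rw [← hT2, eq_sub_iff_add_eq, add_comm, Finset.sum_inter_add_sum_sdiff]
    have h2 : ∑ i ∈ D, (ind I i - ind (T ∩ D) i) • f i =
        ∑ i ∈ I, f i - ∑ i ∈ T ∩ D, f i := by
      rw [sum_eq_ind f I D hI1, sum_eq_ind f (T ∩ D) D Finset.inter_subset_right,
        ← Finset.sum_sub_distrib]
      exact Finset.sum_congr rfl fun i _ => sub_smul _ _ _
    rw [h1, h2]; abel
  refine ⟨fun i => ind I i - ind (T ∩ D) i, ?_, ?_, ?_⟩
  · intro i
    simp only
    have a1 := ind_cases I i
    have a3 := ind_cases (T ∩ D) i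
    omega
  · rw [h1, mem_SS]
    exact ⟨_, Finset.union_subset (Finset.sdiff_subset.trans hT1) (hI1.trans hDJ), rfl⟩
  · rw [h1, Finset.sum_union (Finset.disjoint_of_subset_right hI1 Finset.sdiff_disjoint), map_add,
      hI2]
    abel

theorem half_combo {s : ℕ} (φ : Q →+ (Fin s → ZMod 2)) (f : ι → Q) (D : Finset ι)
    (hD : LinearIndepOn (ZMod 2) (fun i => φ (f i)) (D : Set ι))
    (hA : ∀ t : Q, t + t = 0 → φ t = 0) (b : Q) (δ δ' : ι → ℤ)
    (he : ∑ i ∈ D, δ i • f i = b + b + ∑ i ∈ D, δ' i • f i) :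
    ∃ η : ι → ℤ, (∀ i ∈ D, δ i - δ' i = 2 * η i) ∧ φ (b - ∑ i ∈ D, η i • f i) = 0 := by
  have h3 : ∀ i ∈ D, ((δ i - δ' i : ℤ) : ZMod 2) = 0 := by
    apply coef φ f D hD (fun i => δ i - δ' i)
    have h4 : ∑ i ∈ D, (δ i - δ' i) • f i = b + b := by
      have : ∑ i ∈ D, (δ i - δ' i) • f i = ∑ i ∈ D, δ i • f i - ∑ i ∈ D, δ' i • f i := by
        rw [← Finset.sum_sub_distrib]
        exact Finset.sum_congr rfl fun i _ => sub_smul _ _ _
      rw [this, he]; abel
    rw [h4, map_add]
    funext j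
    exact CharTwo.add_self_eq_zero _
  have h4 : ∀ i ∈ D, δ i - δ' i = 2 * ((δ i - δ' i) / 2) := by
    intro i hi
    have := h3 i hi
    rw [ZMod.intCast_zmod_eq_zero_iff_dvd] at this
    push_cast at this
    omega
  refine ⟨fun i => (δ i - δ' i) / 2, h4, ?_⟩
  apply hA
  have h5 : ∑ i ∈ D, δ i • f i - ∑ i ∈ D, δ' i • f i =
      ∑ i ∈ D, ((δ i - δ' i) / 2) • f i + ∑ i ∈ D, ((δ i - δ' i) / 2) • f i := by
    rw [← Finset.sum_sub_distrib, ← Finset.sum_add_distrib]
    refine Finset.sum_congr rfl fun i hi => ?_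
    rw [← sub_smul, ← add_smul, ← two_mul]
    conv_lhs => rw [h4 i hi]
  rw [he] at h5
  have h6 : b + b = ∑ i ∈ D, ((δ i - δ' i) / 2) • f i + ∑ i ∈ D, ((δ i - δ' i) / 2) • f i := by
    rw [← h5]; abel
  have h7 : b - ∑ i ∈ D, ((δ i - δ' i) / 2) • f i + (b - ∑ i ∈ D, ((δ i - δ' i) / 2) • f i) =
      b + b - (∑ i ∈ D, ((δ i - δ' i) / 2) • f i + ∑ i ∈ D, ((δ i - δ' i) / 2) • f i) := by abel
  rw [h7, h6, sub_self]

/-- L3 -/
theorem two_sheets {s : ℕ} (φ : Q →+ (Fin s → ZMod 2)) (f : ι → Q)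
    (D J : Finset ι) (hDJ : D ⊆ J) (hDs : D.card = s)
    (hD : LinearIndepOn (ZMod 2) (fun i => φ (f i)) (D : Set ι))
    (hA : ∀ t : Q, t + t = 0 → φ t = 0) (b : Q) (hb : φ b ≠ 0) (z : Q)
    (h0 : z ∈ SS f J) (h1 : z + b ∈ SS f J) (h2 : z + (b + b) ∈ SS f J)
    (h3 : z + b + (b + b) ∈ SS f J) : 2 ^ (s + 1) ≤ (SS f J).card := by
  classical
  have key : ∀ v : Fin s → ZMod 2, 2 ≤ ((SS f J).filter (fun x => φ x = v)).card := by
    intro v
    obtain ⟨δ0, a0, b0, c0⟩ := exists_elt φ f D J hDJ hDs hD v z h0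
    obtain ⟨δ1, a1, b1, c1⟩ := exists_elt φ f D J hDJ hDs hD v (z + b) h1
    obtain ⟨δ2, a2, b2, c2⟩ := exists_elt φ f D J hDJ hDs hD v (z + (b + b)) h2
    obtain ⟨δ3, a3, b3, c3⟩ := exists_elt φ f D J hDJ hDs hD v (z + b + (b + b)) h3
    by_contra hcon
    push Not at hcon
    have huniq : ∀ x y : Q, x ∈ SS f J → y ∈ SS f J → φ x = v → φ y = v → x = y := by
      intro x y hx hy hx' hy'
      by_contra hne
      have : ({x, y} : Finset Q) ⊆ (SS f J).filter (fun x => φ x = v) := by
        intro w hw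
        rw [Finset.mem_insert, Finset.mem_singleton] at hw
        rw [Finset.mem_filter]
        rcases hw with rfl | rfl
        · exact ⟨hx, hx'⟩
        · exact ⟨hy, hy'⟩
      have h4 := Finset.card_le_card this
      rw [Finset.card_pair hne] at h4
      omega
    have e1 := huniq _ _ b0 b2 c0 c2
    have e2 := huniq _ _ b1 b3 c1 c3
    have e1' : ∑ i ∈ D, δ0 i • f i = b + b + ∑ i ∈ D, δ2 i • f i := by
      rw [add_assoc] at e1
      exact add_left_cancel e1
    have e2' : ∑ i ∈ D, δ1 i • f i = b + b + ∑ i ∈ D, δ3 i • f i := by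
      rw [add_assoc (z + b)] at e2
      exact add_left_cancel e2
    obtain ⟨η, hη1, hη2⟩ := half_combo φ f D hD hA b δ0 δ2 e1'
    obtain ⟨θ, hθ1, hθ2⟩ := half_combo φ f D hD hA b δ1 δ3 e2'
    have p1 : ∀ i ∈ D, ((η i - θ i : ℤ) : ZMod 2) = 0 := by
      apply coef φ f D hD (fun i => η i - θ i)
      have : ∑ i ∈ D, (η i - θ i) • f i =
          (b - ∑ i ∈ D, θ i • f i) - (b - ∑ i ∈ D, η i • f i) := by
        have : ∑ i ∈ D, (η i - θ i) • f i = ∑ i ∈ D, η i • f i - ∑ i ∈ D, θ i • f i := by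
          rw [← Finset.sum_sub_distrib]
          exact Finset.sum_congr rfl fun i _ => sub_smul _ _ _
        rw [this]; abel
      rw [this, map_sub, hη2, hθ2, sub_zero]
    have p2 : ∀ i ∈ D, ((η i - (δ0 i - δ1 i) : ℤ) : ZMod 2) = 0 := by
      apply coef φ f D hD (fun i => η i - (δ0 i - δ1 i))
      have : ∑ i ∈ D, (η i - (δ0 i - δ1 i)) • f i =
          (z + b + ∑ i ∈ D, δ1 i • f i) - (z + ∑ i ∈ D, δ0 i • f i)
            - (b - ∑ i ∈ D, η i • f i) := by
        have : ∑ i ∈ D, (η i - (δ0 i - δ1 i)) • f i =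
            ∑ i ∈ D, η i • f i - (∑ i ∈ D, δ0 i • f i - ∑ i ∈ D, δ1 i • f i) := by
          rw [← Finset.sum_sub_distrib, ← Finset.sum_sub_distrib]
          refine Finset.sum_congr rfl fun i _ => ?_
          rw [sub_smul, sub_smul]
        rw [this]; abel
      rw [this, map_sub, map_sub, hη2, c0, c1, sub_self, sub_zero]
    have p3 : ∀ i ∈ D, ((η i : ℤ) : ZMod 2) = 0 := by
      intro i hi
      have q1 := p1 i hi
      have q2 := p2 i hi
      rw [ZMod.intCast_zmod_eq_zero_iff_dvd] at q1 q2 ⊢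
      push_cast at q1 q2 ⊢
      have q3 := hη1 i hi
      have q4 := hθ1 i hi
      have r0 := a0 i
      have r1 := a1 i
      have r2 := a2 i
      have r3 := a3 i
      omega
    apply hb
    have : φ b = φ (b - ∑ i ∈ D, η i • f i) + ∑ i ∈ D, φ (η i • f i) := by
      rw [map_sub, map_sum]; abel
    rw [this, hη2, zero_add]
    apply Finset.sum_eq_zero
    intro i hi
    rw [map_zsmul, ← Int.cast_smul_eq_zsmul (ZMod 2), p3 i hi, zero_smul]
  have h4 : (SS f J).card = ∑ v ∈ (Finset.univ : Finset (Fin s → ZMod 2)),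
      ((SS f J).filter (fun x => φ x = v)).card :=
    Finset.card_eq_sum_card_fiberwise (fun _ _ => Finset.mem_coe.2 (Finset.mem_univ _))
  rw [h4]
  calc 2 ^ (s + 1) = ∑ v ∈ (Finset.univ : Finset (Fin s → ZMod 2)), 2 := by
        rw [Finset.sum_const, Finset.card_univ, Fintype.card_fun, Fintype.card_fin, ZMod.card,
          smul_eq_mul, pow_succ]
    _ ≤ _ := Finset.sum_le_sum fun v _ => key v

/-- partial cosets of `⟨b⟩` are counted by the new elements -/
theorem coset_step (b : Q) (S : Finset Q) (K : AddSubgroup Q) [DecidableEq (Q ⧸ K)]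
    (hK : K = AddSubgroup.zmultiples b) :
    ∃ F P : Finset (Q ⧸ K), F.card + P.card = (S.image (QuotientAddGroup.mk' K)).card ∧
      P.card ≤ ((b +ᵥ S) \ S).card ∧ Nat.card K * F.card + P.card ≤ S.card ∧
      ∀ y ∈ F, ∃ z : Q, QuotientAddGroup.mk' K z = y ∧ ∀ k ∈ K, z + k ∈ S := by
  classical
  set π := QuotientAddGroup.mk' K with hπ
  set X := S.image π with hX
  let full : Q ⧸ K → Prop := fun y => ∀ x, π x = y → x ∈ S
  have hkb : π b = 0 := by
    rw [hπ, QuotientAddGroup.mk'_apply, QuotientAddGroup.eq_zero_iff, hK]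
    exact AddSubgroup.mem_zmultiples b
  have hpart : ∀ y ∈ X.filter (fun y => ¬ full y), ∃ x ∈ S, π x = y ∧ b + x ∉ S := by
    intro y hy
    rw [Finset.mem_filter, hX, Finset.mem_image] at hy
    obtain ⟨⟨x0, hx0, rfl⟩, hnf⟩ := hy
    by_contra hcon
    push Not at hcon
    apply hnf
    have hmul : ∀ n : ℕ, n • b + x0 ∈ S := by
      intro n
      induction n with
      | zero => simpa using hx0
      | succ n ih =>
        have := hcon _ ih (by rw [map_add, map_nsmul, hkb, smul_zero, zero_add])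
        rw [succ_nsmul', add_assoc]
        exact this
    intro x hx
    have h1 : x - x0 ∈ K := by
      rw [hπ, QuotientAddGroup.mk'_apply, QuotientAddGroup.mk'_apply, eq_comm,
        QuotientAddGroup.eq] at hx
      have e : x - x0 = -x0 + x := by abel
      rwa [e]
    rw [hK, ← mem_multiples_iff_mem_zmultiples, AddSubmonoid.mem_multiples_iff] at h1
    obtain ⟨n, hn⟩ := h1
    have := hmul n
    rw [hn] at this
    simpa using this
  refine ⟨X.filter full, X.filter (fun y => ¬ full y), ?_, ?_, ?_, ?_⟩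
  · exact Finset.card_filter_add_card_filter_not _
  · choose! g hg1 hg2 hg3 using hpart
    apply Finset.card_le_card_of_injOn (fun y => b + g y)
    · intro y hy
      rw [Finset.mem_coe] at hy ⊢
      rw [Finset.mem_sdiff, Finset.mem_vadd_finset]
      exact ⟨⟨g y, hg1 y hy, rfl⟩, hg3 y hy⟩
    · intro y hy y' hy' he
      rw [Finset.mem_coe] at hy hy'
      have : g y = g y' := add_left_cancel he
      rw [← hg2 y hy, ← hg2 y' hy', this]
  · have h1 : S.card = ∑ y ∈ X, (S.filter (fun x => π x = y)).card :=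
      Finset.card_eq_sum_card_fiberwise (fun x hx => by
        rw [hX]
        exact Finset.mem_coe.2 (Finset.mem_image_of_mem _ (Finset.mem_coe.1 hx)))
    rw [h1, ← Finset.sum_filter_add_sum_filter_not X full]
    apply add_le_add
    · rw [mul_comm, ← smul_eq_mul, ← Finset.sum_const]
      apply Finset.sum_le_sum
      intro y hy
      rw [Finset.mem_filter, hX, Finset.mem_image] at hy
      obtain ⟨⟨x0, hx0, rfl⟩, hf⟩ := hy
      have := Fintype.ofFinite K
      rw [Nat.card_eq_fintype_card, ← Finset.card_univ]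
      apply Finset.card_le_card_of_injOn (fun k : K => x0 + k)
      · intro k _
        rw [Finset.mem_coe, Finset.mem_filter]
        have hk : π (x0 + k) = π x0 := by
          rw [map_add]
          have : π (k : Q) = 0 := by
            rw [hπ, QuotientAddGroup.mk'_apply, QuotientAddGroup.eq_zero_iff]
            exact k.2
          rw [this, add_zero]
        exact ⟨hf _ hk, hk⟩
      · intro k _ k' _ he
        exact Subtype.ext (add_left_cancel he)
    · rw [Finset.card_eq_sum_ones]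
      apply Finset.sum_le_sum
      intro y hy
      rw [Finset.mem_filter, hX, Finset.mem_image] at hy
      obtain ⟨⟨x0, hx0, rfl⟩, -⟩ := hy
      exact Finset.card_pos.2 ⟨x0, Finset.mem_filter.2 ⟨hx0, rfl⟩⟩
  · intro y hy
    rw [Finset.mem_filter, hX, Finset.mem_image] at hy
    obtain ⟨⟨x0, hx0, rfl⟩, hf⟩ := hy
    refine ⟨x0, rfl, fun k hk => hf _ ?_⟩
    rw [map_add]
    have : π (k : Q) = 0 := by
      rw [hπ, QuotientAddGroup.mk'_apply, QuotientAddGroup.eq_zero_iff]
      exact hk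
    rw [this, add_zero]

/-- number of cosets of `⟨b⟩` met by the subset sums of a basis -/
theorem cosets_of_basis {p s : ℕ} (hp : p.Prime) (φ : Q →+ (Fin s → ZMod p)) (f : ι → Q)
    (D : Finset ι) (hDs : D.card = s)
    (hD : LinearIndepOn (ZMod p) (fun i => φ (f i)) (D : Set ι)) (b : Q) (K : AddSubgroup Q)
    [DecidableEq (Q ⧸ K)] (hK : K = AddSubgroup.zmultiples b) :
    2 ^ (s - 1) ≤ ((SS f D).image (QuotientAddGroup.mk' K)).card ∧
      (φ b = 0 → 2 ^ s ≤ ((SS f D).image (QuotientAddGroup.mk' K)).card) := by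
  classical
  have := Fact.mk hp
  set π := QuotientAddGroup.mk' K with hπ
  have hmain : φ b = 0 → 2 ^ s ≤ ((SS f D).image π).card := by
    intro hb
    rw [← hDs, ← Finset.card_powerset]
    apply Finset.card_le_card_of_injOn (fun I => π (∑ i ∈ I, f i))
    · intro I hI
      rw [Finset.mem_coe, Finset.mem_powerset] at hI
      exact Finset.mem_coe.2 (Finset.mem_image_of_mem _ ((mem_SS _ _ _).2 ⟨I, hI, rfl⟩))
    · intro I hI I' hI' he
      rw [Finset.mem_coe, Finset.mem_powerset] at hI hI'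
      simp only at he
      apply subset_eq_of_phi hp φ f D hD hI hI'
      rw [hπ, QuotientAddGroup.mk'_apply, QuotientAddGroup.mk'_apply, QuotientAddGroup.eq, hK,
        AddSubgroup.mem_zmultiples_iff] at he
      obtain ⟨k, hk⟩ := he
      have h1 : φ (-∑ i ∈ I, f i + ∑ i ∈ I', f i) = 0 := by rw [← hk, map_zsmul, hb, smul_zero]
      rw [map_add, map_neg] at h1
      have h2 : φ (∑ i ∈ I', f i) = φ (∑ i ∈ I, f i) := by
        rw [neg_add_eq_zero] at h1
        exact h1.symm
      exact h2.symm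
  refine ⟨?_, hmain⟩
  by_cases hb : φ b = 0
  · exact (Nat.pow_le_pow_right (by norm_num) (Nat.sub_le s 1)).trans (hmain hb)
  · -- expand `φ b` in the basis
    have hspan : φ b ∈ Submodule.span (ZMod p) ((fun i => φ (f i)) '' (D : Set ι)) := by
      have h1 : Module.finrank (ZMod p)
          (Submodule.span (ZMod p) (Set.range (fun i : (D : Set ι) => φ (f i)))) = s := by
        rw [finrank_span_eq_card hD]
        simp [hDs]
      have h2 : Submodule.span (ZMod p) (Set.range (fun i : (D : Set ι) => φ (f i))) = ⊤ := by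
        apply Submodule.eq_top_of_finrank_eq
        rw [h1, Module.finrank_fin_fun]
      rw [Set.image_eq_range, h2]
      trivial
    rw [← Finset.coe_image] at hspan
    rw [Finset.coe_image, Submodule.mem_span_image_finset_iff_exists_fun] at hspan
    obtain ⟨c', hc'⟩ := hspan
    obtain ⟨c, hc⟩ : ∃ c : ι → ZMod p, ∑ i ∈ D, c i • φ (f i) = φ b := by
      refine ⟨fun i => if h : i ∈ D then c' ⟨i, h⟩ else 0, ?_⟩
      rw [← hc', ← Finset.sum_coe_sort D]
      refine Finset.sum_congr rfl fun i _ => ?_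
      beta_reduce
      rw [dif_pos i.2]
    obtain ⟨i0, hi0, hci0⟩ : ∃ i0 ∈ D, c i0 ≠ 0 := by
      by_contra hcon
      push Not at hcon
      apply hb
      rw [← hc]
      exact Finset.sum_eq_zero fun i hi => by rw [hcon i hi, zero_smul]
    rw [← hDs, ← Finset.card_erase_of_mem hi0, ← Finset.card_powerset]
    apply Finset.card_le_card_of_injOn (fun I => π (∑ i ∈ I, f i))
    · intro I hI
      rw [Finset.mem_coe, Finset.mem_powerset] at hI
      exact Finset.mem_coe.2 (Finset.mem_image_of_mem _ ((mem_SS _ _ _).2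
        ⟨I, hI.trans (Finset.erase_subset _ _), rfl⟩))
    · intro I hI I' hI' he
      rw [Finset.mem_coe, Finset.mem_powerset] at hI hI'
      have hI2 := hI.trans (Finset.erase_subset _ _)
      have hI2' := hI'.trans (Finset.erase_subset _ _)
      simp only at he
      apply subset_eq_of_phi hp φ f D hD hI2 hI2'
      rw [hπ, QuotientAddGroup.mk'_apply, QuotientAddGroup.mk'_apply, QuotientAddGroup.eq, hK,
        AddSubgroup.mem_zmultiples_iff] at he
      obtain ⟨k, hk⟩ := he
      have h1 : φ (-∑ i ∈ I, f i + ∑ i ∈ I', f i) = k • φ b := by rw [← hk, map_zsmul]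
      -- coefficient at i0
      have h2 : ∑ i ∈ D, (((ind I' i - ind I i : ℤ) : ZMod p) - (k : ZMod p) * c i) • φ (f i) = 0 := by
        have e1 : ∑ i ∈ D, (((ind I' i - ind I i : ℤ) : ZMod p) - (k : ZMod p) * c i) • φ (f i) =
            φ (-∑ i ∈ I, f i + ∑ i ∈ I', f i) - k • ∑ i ∈ D, c i • φ (f i) := by
          rw [map_add, map_neg, sum_eq_ind f I D hI2, sum_eq_ind f I' D hI2', map_sum, map_sum,
            Finset.smul_sum, ← Finset.sum_neg_distrib, ← Finset.sum_add_distrib,
            ← Finset.sum_sub_distrib]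
          refine Finset.sum_congr rfl fun i _ => ?_
          rw [map_zsmul, map_zsmul, sub_smul, mul_smul, Int.cast_smul_eq_zsmul,
            Int.cast_smul_eq_zsmul, sub_smul]
          abel
        rw [e1, h1, hc, sub_self]
      have h3 := (linearIndepOn_finset_iff.1 hD) _ h2
      have h4 := h3 i0 hi0
      have z1 : ind I i0 = 0 := by
        unfold ind
        rw [if_neg]
        intro h
        exact (Finset.mem_erase.1 (hI h)).1 rfl
      have z2 : ind I' i0 = 0 := by
        unfold ind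
        rw [if_neg]
        intro h
        exact (Finset.mem_erase.1 (hI' h)).1 rfl
      rw [z1, z2] at h4
      have h5 : (k : ZMod p) * c i0 = 0 := by simpa using h4
      have h6 : (k : ZMod p) = 0 := (mul_eq_zero.1 h5).resolve_right hci0
      have h7 : φ (-∑ i ∈ I, f i + ∑ i ∈ I', f i) = 0 := by
        rw [h1, ← Int.cast_smul_eq_zsmul (ZMod p), h6, zero_smul]
      rw [map_add, map_neg, neg_add_eq_zero] at h7
      exact h7

end Pool.Agent.U358.ZG
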