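import Mathlib
import Pool.Agent.U358.ZG.Core2

set_option autoImplicit false
set_option linter.unusedSectionVars false

namespace Pool.Agent.U358.ZG

open Finset
open scoped Pointwise

variable {Q : Type*} [AddCommGroup Q] [DecidableEq Q] {ι : Type*} [DecidableEq ι] [Finite Q]

/-- a surjection onto `F_p^s` induces one of `Q / ⟨b⟩` onto `F_p^(s-1)` -/
theorem quot_surj {p s : ℕ} (hp : p.Prime) (χ : Q →+ (Fin s → ZMod p))
    (hχ : Function.Surjective χ) (b : Q) (K : AddSubgroup Q) (hK : K = AddSubgroup.zmultiples b) :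
    ∃ ψ : Q ⧸ K →+ (Fin (s - 1) → ZMod p), Function.Surjective ψ := by
  classical
  subst hK
  have := Fact.mk hp
  obtain ⟨W, hW⟩ : ∃ W : Submodule (ZMod p) (Fin s → ZMod p), W = Submodule.span (ZMod p) {χ b} :=
    ⟨_, rfl⟩
  have h1 : Module.finrank (ZMod p) W ≤ 1 := by
    rw [hW]
    exact (finrank_span_le_card ({χ b} : Set (Fin s → ZMod p))).trans (by simp)
  have h2 := Submodule.finrank_quotient_add_finrank W
  rw [Module.finrank_fin_fun] at h2
  obtain ⟨k, hk⟩ : ∃ k, k = Module.finrank (ZMod p) ((Fin s → ZMod p) ⧸ W) := ⟨_, rfl⟩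
  have e : ((Fin s → ZMod p) ⧸ W) ≃ₗ[ZMod p] (Fin k → ZMod p) := by
    rw [hk]
    exact (Module.finBasis (ZMod p) ((Fin s → ZMod p) ⧸ W)).equivFun
  let π : (Fin k → ZMod p) →ₗ[ZMod p] (Fin (s - 1) → ZMod p) :=
    LinearMap.funLeft (ZMod p) (ZMod p) (Fin.castLE (by omega))
  have hπ : Function.Surjective π :=
    LinearMap.funLeft_surjective_of_injective _ _ _ (Fin.castLE_injective _)
  let g : Q →+ (Fin (s - 1) → ZMod p) :=
    ((π.comp e.toLinearMap).comp W.mkQ).toAddMonoidHom.comp χ
  have hg : Function.Surjective g :=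
    ((hπ.comp e.surjective).comp (Submodule.mkQ_surjective W)).comp hχ
  have hgb : g b = 0 := by
    show π (e (W.mkQ (χ b))) = 0
    have : W.mkQ (χ b) = 0 := by
      rw [Submodule.mkQ_apply, Submodule.Quotient.mk_eq_zero, hW]
      exact Submodule.subset_span rfl
    rw [this, map_zero, map_zero]
  have hker : AddSubgroup.zmultiples b ≤ g.ker := by
    rw [AddSubgroup.zmultiples_le]
    exact hgb
  refine ⟨QuotientAddGroup.lift _ g hker, ?_⟩
  intro y
  obtain ⟨x, rfl⟩ := hg y
  exact ⟨(x : Q ⧸ AddSubgroup.zmultiples b), rfl⟩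

theorem exists_prime_rank_eq (R : Type*) [AddCommGroup R] [Finite R] {d : ℕ}
    (hd : AddGroup.rank R = d) :
    ∃ p : ℕ, p.Prime ∧ ∃ φ : R →+ (Fin d → ZMod p), Function.Surjective φ := by
  subst hd
  exact exists_prime_rank' R

/-- two surjections onto `F_p^s`, `s` the rank, have the same kernel -/
theorem ker_unique {p s : ℕ} (hp : p.Prime) (hs : AddGroup.rank Q = s)
    (φ φ' : Q →+ (Fin s → ZMod p)) (hφ' : Function.Surjective φ') (b : Q) (hb : φ' b = 0) :
    φ b = 0 := by
  classical
  have := Fact.mk hp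
  by_contra hne
  obtain ⟨i, hi⟩ := Function.ne_iff.1 hne
  let Φ : Q →+ (Fin (s + 1) → ZMod p) :=
    { toFun := fun x => Fin.cons (φ x i) (φ' x)
      map_zero' := by
        funext j
        refine Fin.cases ?_ (fun j => ?_) j <;> simp
      map_add' := by
        intro x y
        funext j
        refine Fin.cases ?_ (fun j => ?_) j <;> simp }
  have hΦ : Function.Surjective Φ := by
    intro v
    obtain ⟨x, hx⟩ := hφ' (Fin.tail v)
    obtain ⟨m, hm⟩ : ∃ m : ℕ, (m : ZMod p) = (v 0 - φ x i) * (φ b i)⁻¹ :=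
      ⟨((v 0 - φ x i) * (φ b i)⁻¹).val, ZMod.natCast_zmod_val _⟩
    refine ⟨x + m • b, ?_⟩
    show Fin.cons (φ (x + m • b) i) (φ' (x + m • b)) = v
    have h1 : φ' (x + m • b) = Fin.tail v := by
      rw [map_add, map_nsmul, hb, smul_zero, add_zero, hx]
    have h2 : φ (x + m • b) i = v 0 := by
      rw [map_add, map_nsmul, Pi.add_apply, Pi.smul_apply, nsmul_eq_mul, hm, mul_assoc,
        inv_mul_cancel₀ hi, mul_one]
      ring
    rw [h1, h2, Fin.cons_self_tail]
  have := le_rank_of_surj hp Φ hΦ
  omega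

/-- an element of order two makes large sets big -/
theorem big_of_order_two (f : ι → Q) (J : Finset ι) (t : Q) (ht : t ≠ 0) (ht2 : t + t = 0) {r : ℕ}
    (hr : AddGroup.rank (Q ⧸ AddSubgroup.zmultiples t) ≤ r) (hc : 2 ^ (r + 1) ≤ (SS f J).card) :
    Big f J := by
  refine ⟨AddSubgroup.zmultiples t, ?_, ?_⟩
  · rw [Ne, AddSubgroup.zmultiples_eq_bot]
    exact ht
  · have h1 : Nat.card (AddSubgroup.zmultiples t) = 2 := by
      rw [Nat.card_zmultiples]
      apply addOrderOf_eq_prime _ ht
      rw [two_nsmul, ht2]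
    rw [h1]
    calc 2 ^ AddGroup.rank (Q ⧸ AddSubgroup.zmultiples t) * 2 ≤ 2 ^ r * 2 :=
          Nat.mul_le_mul_right _ (Nat.pow_le_pow_right (by norm_num) hr)
      _ = 2 ^ (r + 1) := (pow_succ 2 r).symm
      _ ≤ _ := hc

/-- the main step: a small increment forces a big set -/
theorem big_of_small_step {p s : ℕ} (hp : p.Prime) (hs : AddGroup.rank Q = s) (hs1 : 1 ≤ s)
    (φ : Q →+ (Fin s → ZMod p)) (hφ : Function.Surjective φ)
    (hodd : p ≠ 2 → ∀ φ' : Q →+ (Fin s → ZMod 2), ¬ Function.Surjective φ')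
    (f : ι → Q) (J : Finset ι) (hgen : AddSubgroup.closure (f '' (J : Set ι)) = ⊤)
    (D : Finset ι) (hDs : D.card = s)
    (hD : LinearIndepOn (ZMod p) (fun i => φ (f i)) (D : Set ι))
    (J' : Finset ι) (hDJ' : D ⊆ J') (c : ι) (hc : c ∉ J') (hcJ : insert c J' ⊆ J) (hfc : f c ≠ 0)
    (hstep : ((f c +ᵥ SS f J') \ SS f J').card < 2 ^ (s - 1)) : Big f J := by
  classical
  obtain ⟨b, hb⟩ : ∃ b, b = f c := ⟨_, rfl⟩
  obtain ⟨K, hK⟩ : ∃ K, K = AddSubgroup.zmultiples b := ⟨_, rfl⟩
  have hKne : K ≠ ⊥ := by
    rw [hK, Ne, AddSubgroup.zmultiples_eq_bot, hb]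
    exact hfc
  rw [← hb] at hstep
  obtain ⟨F, P, h1, h2, h3, h4⟩ := coset_step b (SS f J') K hK
  obtain ⟨h5, h6⟩ := cosets_of_basis hp φ f D hDs hD b K hK
  have h7 : ((SS f D).image (QuotientAddGroup.mk' K)).card ≤
      ((SS f J').image (QuotientAddGroup.mk' K)).card :=
    Finset.card_le_card (Finset.image_subset_image (SS_mono f hDJ'))
  have hJ'J : J' ⊆ J := (Finset.subset_insert _ _).trans hcJ
  have hSJ : (SS f J').card ≤ (SS f J).card := Finset.card_le_card (SS_mono f hJ'J)
  have hFpos : 0 < F.card := by omega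
  obtain ⟨y, hy⟩ := Finset.card_pos.1 hFpos
  obtain ⟨z, -, hz⟩ := h4 y hy
  have hzJ : ∀ k ∈ K, z + k ∈ SS f J := fun k hk => SS_mono f hJ'J (hz k hk)
  by_cases hA : ∃ p' : ℕ, p'.Prime ∧ p' ≠ 2 ∧
      ∃ ψ : Q ⧸ K →+ (Fin (AddGroup.rank (Q ⧸ K)) → ZMod p'), Function.Surjective ψ
  · obtain ⟨p', hp', hp2, ψ, hψ⟩ := hA
    exact big_of_coset f J hgen K hKne z hzJ p' hp' hp2 ψ hψ
  · push Not at hA
    obtain ⟨d, hd⟩ : ∃ d, d = AddGroup.rank (Q ⧸ K) := ⟨_, rfl⟩
    have hds : d ≤ s := by
      rw [hd, ← hs]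
      exact AddGroup.rank_le_of_surjective (QuotientAddGroup.mk' K)
        (QuotientAddGroup.mk'_surjective K)
    rw [← hd] at hA
    obtain ⟨p'', hp'', ψ, hψ⟩ := exists_prime_rank_eq (Q ⧸ K) hd.symm
    have hp''2 : p'' = 2 := by
      by_contra hne
      exact hA p'' hp'' hne ψ hψ
    subst hp''2
    have hquot : ∀ (p' : ℕ), p'.Prime → ∀ χ : Q →+ (Fin s → ZMod p'), Function.Surjective χ →
        s - 1 ≤ d ∧ ∃ ψ : Q ⧸ K →+ (Fin (s - 1) → ZMod p'), Function.Surjective ψ := by
      intro p' hp' χ hχ
      obtain ⟨ψ, hψ⟩ := quot_surj hp' χ hχ b K hK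
      refine ⟨?_, ψ, hψ⟩
      rw [hd]
      exact le_rank_of_surj hp' ψ hψ
    have hp2 : p = 2 := by
      by_contra hne
      obtain ⟨g1, ψ1, hψ1⟩ := hquot p hp φ hφ
      rcases Nat.lt_or_ge d s with hlt | hge
      · have : d = s - 1 := by omega
        subst this
        exact hA p hp hne ψ1 hψ1
      · have : d = s := by omega
        subst this
        exact hodd hne (ψ.comp (QuotientAddGroup.mk' K)) (hψ.comp (QuotientAddGroup.mk'_surjective K))
    subst hp2
    -- an element of order two
    have h2card : 2 ∣ Nat.card Q := by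
      have h8 : Nat.card (Fin s → ZMod 2) ∣ Nat.card Q := AddSubgroup.card_dvd_of_surjective φ hφ
      rw [Nat.card_fun, Nat.card_zmod, Nat.card_fin] at h8
      exact (dvd_pow_self 2 (by omega)).trans h8
    obtain ⟨t0, ht0⟩ := exists_prime_addOrderOf_dvd_card' (G := Q) 2 h2card
    have ht00 : t0 ≠ 0 := by
      rintro rfl
      rw [addOrderOf_zero] at ht0
      omega
    have ht02 : t0 + t0 = 0 := by
      rw [← two_nsmul, ← ht0]
      exact addOrderOf_nsmul_eq_zero t0
    have hrk0 : AddGroup.rank (Q ⧸ AddSubgroup.zmultiples t0) ≤ s := by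
      rw [← hs]
      exact AddGroup.rank_le_of_surjective (QuotientAddGroup.mk' _)
        (QuotientAddGroup.mk'_surjective _)
    by_cases hφb : φ b = 0
    · -- case E alpha
      have h8 := h6 hφb
      have hw : 2 ≤ Nat.card K := by
        have : Nat.card K ≠ 1 := by
          intro h
          exact hKne ((AddSubgroup.card_eq_one).1 h)
        have : 0 < Nat.card K := Nat.card_pos
        omega
      rcases Nat.eq_or_lt_of_le hw with hw2 | hw3
      · -- periodic
        apply big_of_periodic f J hgen K hKne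
        have hbb : b + b = 0 := by
          have h9 : addOrderOf b = 2 := by rw [← Nat.card_zmultiples, ← hK, ← hw2]
          rw [← two_nsmul, ← h9]
          exact addOrderOf_nsmul_eq_zero b
        have hper1 : ∀ x ∈ SS f J, b + x ∈ SS f J := by
          intro x hx
          obtain ⟨I, hI, rfl⟩ := (mem_SS _ _ _).1 hx
          by_cases hcI : c ∈ I
          · rw [mem_SS]
            refine ⟨I.erase c, (Finset.erase_subset _ _).trans hI, ?_⟩
            rw [← Finset.add_sum_erase I f hcI, ← hb, ← add_assoc, hbb, zero_add]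
          · rw [mem_SS]
            refine ⟨insert c I, Finset.insert_subset (hcJ (Finset.mem_insert_self _ _)) hI, ?_⟩
            rw [Finset.sum_insert hcI, ← hb]
        intro k hk x hx
        rw [hK, ← mem_multiples_iff_mem_zmultiples, AddSubmonoid.mem_multiples_iff] at hk
        obtain ⟨n, rfl⟩ := hk
        induction n with
        | zero => simpa using hx
        | succ n ih =>
          rw [succ_nsmul', add_assoc]
          exact hper1 _ ih
      · apply big_of_order_two f J t0 ht00 ht02 hrk0
        refine le_trans ?_ hSJ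
        refine le_trans ?_ h3
        have h9 : 3 * F.card ≤ Nat.card K * F.card := Nat.mul_le_mul_right _ hw3
        obtain ⟨u, hu⟩ : ∃ u, s = u + 1 := ⟨s - 1, by omega⟩
        subst hu
        rw [Nat.add_sub_cancel] at hstep
        have e1 : 2 ^ (u + 1) = 2 * 2 ^ u := by ring
        have e2 : 2 ^ (u + 1 + 1) = 4 * 2 ^ u := by ring
        rw [e1] at h8
        rw [e2]
        omega
    · -- case E beta
      by_cases hB : ∃ t : Q, t + t = 0 ∧ φ t ≠ 0
      · obtain ⟨t, ht2, hφt⟩ := hB
        have ht : t ≠ 0 := by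
          rintro rfl
          exact hφt (map_zero _)
        have hrk : AddGroup.rank (Q ⧸ AddSubgroup.zmultiples t) ≤ s - 1 := by
          by_contra hcon
          have hle : AddGroup.rank (Q ⧸ AddSubgroup.zmultiples t) ≤ s := by
            rw [← hs]
            exact AddGroup.rank_le_of_surjective (QuotientAddGroup.mk' _)
              (QuotientAddGroup.mk'_surjective _)
          have heq : AddGroup.rank (Q ⧸ AddSubgroup.zmultiples t) = s := by omega
          obtain ⟨q, hq, χ, hχ⟩ := exists_prime_rank_eq (Q ⧸ AddSubgroup.zmultiples t) heq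
          have hχ' : Function.Surjective (χ.comp (QuotientAddGroup.mk' (AddSubgroup.zmultiples t))) :=
            hχ.comp (QuotientAddGroup.mk'_surjective _)
          by_cases hq2 : q = 2
          · subst hq2
            apply hφt
            apply ker_unique Nat.prime_two hs φ _ hχ' t
            show χ (QuotientAddGroup.mk' (AddSubgroup.zmultiples t) t) = 0
            have : QuotientAddGroup.mk' (AddSubgroup.zmultiples t) t = 0 := by
              rw [QuotientAddGroup.mk'_apply, QuotientAddGroup.eq_zero_iff]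
              exact AddSubgroup.mem_zmultiples t
            rw [this, map_zero]
          · obtain ⟨g1, ψ1, hψ1⟩ := hquot q hq _ hχ'
            rcases Nat.lt_or_ge d s with hlt | hge
            · have : d = s - 1 := by omega
              subst this
              exact hA q hq hq2 ψ1 hψ1
            · have : d = s := by omega
              subst this
              apply hφb
              apply ker_unique Nat.prime_two hs φ (ψ.comp (QuotientAddGroup.mk' K))
                (hψ.comp (QuotientAddGroup.mk'_surjective K)) b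
              show ψ (QuotientAddGroup.mk' K b) = 0
              have : QuotientAddGroup.mk' K b = 0 := by
                rw [QuotientAddGroup.mk'_apply, QuotientAddGroup.eq_zero_iff, hK]
                exact AddSubgroup.mem_zmultiples b
              rw [this, map_zero]
        apply big_of_order_two f J t ht ht2 hrk
        rw [Nat.sub_add_cancel hs1]
        have h10 : (SS f D).card = 2 ^ s := by
          unfold SS
          rw [Finset.card_image_of_injOn, Finset.card_powerset, hDs]
          intro I hI I' hI' he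
          rw [Finset.mem_coe, Finset.mem_powerset] at hI hI'
          exact subset_eq_of_phi Nat.prime_two φ f D hD hI hI' (by simp only at he; rw [he])
        rw [← h10]
        exact Finset.card_le_card (SS_mono f (hDJ'.trans hJ'J))
      · push Not at hB
        apply big_of_order_two f J t0 ht00 ht02 hrk0
        refine le_trans ?_ hSJ
        have hbK : b ∈ K := by rw [hK]; exact AddSubgroup.mem_zmultiples b
        apply two_sheets φ f D J' hDJ' hDs hD hB b hφb z
        · simpa using hz 0 K.zero_mem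
        · exact hz b hbK
        · exact hz _ (K.add_mem hbK hbK)
        · rw [add_assoc]
          exact hz _ (K.add_mem hbK (K.add_mem hbK hbK))

/-- **Lower bound for the number of subset sums of a generating family.** -/
theorem core (f : ι → Q) (J : Finset ι) (hQ : Nontrivial Q) (h0 : ∀ i ∈ J, f i ≠ 0)
    (hgen : AddSubgroup.closure (f '' (J : Set ι)) = ⊤) :
    Big f J ∨ (AddGroup.rank Q ≤ J.card ∧
      2 ^ (AddGroup.rank Q - 1) * (J.card - AddGroup.rank Q + 2) ≤ (SS f J).card) := by
  classical
  obtain ⟨s, hs⟩ : ∃ s, AddGroup.rank Q = s := ⟨_, rfl⟩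
  have hs1 : 1 ≤ s := by
    rw [← hs]
    exact AddGroup.rank_pos Q
  -- choice of the prime
  obtain ⟨p, hp, φ, hφ, hodd⟩ : ∃ p : ℕ, p.Prime ∧ ∃ φ : Q →+ (Fin s → ZMod p),
      Function.Surjective φ ∧
      (p ≠ 2 → ∀ φ' : Q →+ (Fin s → ZMod 2), ¬ Function.Surjective φ') := by
    by_cases h2 : ∃ φ' : Q →+ (Fin s → ZMod 2), Function.Surjective φ'
    · obtain ⟨φ', hφ'⟩ := h2
      exact ⟨2, Nat.prime_two, φ', hφ', fun h => absurd rfl h⟩
    · obtain ⟨p, hp, φ, hφ⟩ := exists_prime_rank_eq Q hs
      exact ⟨p, hp, φ, hφ, fun _ φ' hφ' => h2 ⟨φ', hφ'⟩⟩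
  obtain ⟨D, hDJ, hDs, hD⟩ := exists_basis_family hp φ hφ f J hgen
  rw [hs]
  by_cases hbig : Big f J
  · exact Or.inl hbig
  right
  have key : ∀ C : Finset ι, C ⊆ J \ D → 2 ^ (s - 1) * (C.card + 2) ≤ (SS f (D ∪ C)).card := by
    intro C
    induction C using Finset.induction_on with
    | empty =>
      intro _
      have h10 : (SS f D).card = 2 ^ s := by
        unfold SS
        rw [Finset.card_image_of_injOn, Finset.card_powerset, hDs]
        intro I hI I' hI' he
        rw [Finset.mem_coe, Finset.mem_powerset] at hI hI'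
        exact subset_eq_of_phi hp φ f D hD hI hI' (by simp only at he; rw [he])
      rw [Finset.union_empty, h10, Finset.card_empty, zero_add, ← pow_succ, Nat.sub_add_cancel hs1]
    | insert c C hcC ih =>
      intro hC
      have hC' : C ⊆ J \ D := (Finset.subset_insert _ _).trans hC
      have h1 := ih hC'
      have hcJ : c ∈ J \ D := hC (Finset.mem_insert_self _ _)
      rw [Finset.mem_sdiff] at hcJ
      have hcn : c ∉ D ∪ C := by
        rw [Finset.mem_union]
        rintro (h | h)
        · exact hcJ.2 h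
        · exact hcC h
      have h2 : D ∪ insert c C = insert c (D ∪ C) := by rw [Finset.union_insert]
      rw [h2, SS_insert f _ c hcn, Finset.card_insert_of_notMem hcC]
      by_contra hcon
      apply hbig
      apply big_of_small_step hp hs hs1 φ hφ hodd f J hgen D hDs hD (D ∪ C)
        Finset.subset_union_left c hcn
      · apply Finset.insert_subset hcJ.1
        exact Finset.union_subset hDJ (hC'.trans Finset.sdiff_subset)
      · exact h0 c hcJ.1
      · push Not at hcon
        have h3 : (SS f (D ∪ C) ∪ (f c +ᵥ SS f (D ∪ C))).card =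
            (SS f (D ∪ C)).card + ((f c +ᵥ SS f (D ∪ C)) \ SS f (D ∪ C)).card := by
          rw [← Finset.union_sdiff_self_eq_union, Finset.card_union_of_disjoint
            Finset.disjoint_sdiff]
        rw [h3] at hcon
        have h4 : 2 ^ (s - 1) * (C.card + 1 + 2) = 2 ^ (s - 1) * (C.card + 2) + 2 ^ (s - 1) := by ring
        omega
  have h1 := key (J \ D) (Finset.Subset.refl _)
  rw [Finset.union_sdiff_of_subset hDJ, Finset.card_sdiff_of_subset hDJ, hDs] at h1
  exact ⟨by rw [← hDs]; exact Finset.card_le_card hDJ, h1⟩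

end Pool.Agent.U358.ZG
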