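import Mathlib
import Pool.Agent.U358.ZG.Core3

set_option autoImplicit false
set_option linter.unusedSectionVars false

namespace Pool.Agent.U358.ZG

open Finset
open scoped Pointwise

/-- `2 ^ rank ≤ card` -/
theorem two_pow_rank_le (R : Type*) [AddCommGroup R] [Finite R] :
    2 ^ AddGroup.rank R ≤ Nat.card R := by
  obtain ⟨p, hp, φ, hφ⟩ := exists_prime_rank' R
  have h1 : Nat.card (Fin (AddGroup.rank R) → ZMod p) ∣ Nat.card R :=
    AddSubgroup.card_dvd_of_surjective φ hφ
  rw [Nat.card_fun, Nat.card_zmod, Nat.card_fin] at h1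
  exact (Nat.pow_le_pow_left hp.two_le _).trans (Nat.le_of_dvd Nat.card_pos h1)

/-- a minimal generating set without zero -/
theorem exists_gens (R : Type*) [AddCommGroup R] [Finite R] :
    ∃ S : Finset R, S.card = AddGroup.rank R ∧ AddSubgroup.closure (S : Set R) = ⊤ ∧ (0 : R) ∉ S := by
  classical
  obtain ⟨S, hS1, hS2⟩ := AddGroup.rank_spec R
  refine ⟨S, hS1, hS2, fun h0 => ?_⟩
  have h1 : AddSubgroup.closure ((S.erase 0 : Finset R) : Set R) = ⊤ := by
    rw [eq_top_iff, ← hS2, AddSubgroup.closure_le]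
    intro x hx
    by_cases h : x = 0
    · rw [h]; exact AddSubgroup.zero_mem _
    · exact AddSubgroup.subset_closure (by
        rw [Finset.mem_coe, Finset.mem_erase]
        exact ⟨h, hx⟩)
  have h2 := AddGroup.rank_le h1
  rw [Finset.card_erase_of_mem h0, ← hS1] at h2
  have h3 : 0 < S.card := Finset.card_pos.2 ⟨0, h0⟩
  omega

variable {G : Type*} [AddCommGroup G] [Fintype G] [DecidableEq G]

/-- the value attached to a proper subgroup -/
noncomputable def term (m : ℕ) (H : AddSubgroup G) : ℕ :=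
  Nat.card H * 2 ^ (AddGroup.rank (G ⧸ H) - 1) *
    (max (AddGroup.rank (G ⧸ H)) (m + 1 - Nat.card H) - AddGroup.rank (G ⧸ H) + 2)

theorem fiber_card (H : AddSubgroup G) [DecidableEq (G ⧸ H)] (y : G ⧸ H) :
    (univ.filter (fun x : G => QuotientAddGroup.mk' H x = y)).card = Nat.card H := by
  classical
  obtain ⟨x0, rfl⟩ := QuotientAddGroup.mk'_surjective H y
  have := Fintype.ofFinite H
  rw [Nat.card_eq_fintype_card, ← Finset.card_univ]
  symm
  apply Finset.card_bij (fun (k : H) _ => x0 + (k : G))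
  · intro k _
    rw [Finset.mem_filter]
    refine ⟨Finset.mem_univ _, ?_⟩
    rw [QuotientAddGroup.mk'_apply, QuotientAddGroup.mk'_apply, eq_comm, QuotientAddGroup.eq]
    have e : -x0 + (x0 + (k : G)) = k := by abel
    rw [e]; exact k.2
  · intro k _ k' _ he
    exact Subtype.ext (add_left_cancel he)
  · intro x hx
    rw [Finset.mem_filter] at hx
    have h1 := hx.2
    rw [QuotientAddGroup.mk'_apply, QuotientAddGroup.mk'_apply, eq_comm, QuotientAddGroup.eq] at h1
    exact ⟨⟨-x0 + x, h1⟩, Finset.mem_univ _, by simp⟩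

/-- **Upper bound.** -/
theorem exists_construction (m : ℕ) (H : AddSubgroup G) (hH : H ≠ ⊤) (hmH : m < 2 * Nat.card H)
    (hrk : AddGroup.rank H + AddGroup.rank (G ⧸ H) ≤ m) :
    ∃ A : Finset G, A.card = m ∧ (0 : G) ∉ A ∧ AddSubgroup.closure (A : Set G) = ⊤ ∧
      A.subsetSum.card ≤ term m H := by
  classical
  obtain ⟨h, hh⟩ : ∃ h, h = Nat.card H := ⟨_, rfl⟩
  obtain ⟨s, hs⟩ : ∃ s, s = AddGroup.rank (G ⧸ H) := ⟨_, rfl⟩
  obtain ⟨r, hr⟩ : ∃ r, r = max s (m + 1 - h) := ⟨_, rfl⟩
  have hh1 : 1 ≤ h := by rw [hh]; exact Nat.card_pos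
  have hmul : Nat.card G = Nat.card (G ⧸ H) * Nat.card H :=
    AddSubgroup.card_eq_card_quotient_mul_card_addSubgroup H
  have hs1 : 1 ≤ s := by
    rw [hs]
    have : Nontrivial (G ⧸ H) := by
      rw [← not_subsingleton_iff_nontrivial]
      intro hsub
      apply hH
      rw [← AddSubgroup.index_eq_one, AddSubgroup.index_eq_card]
      exact Nat.card_unique
    exact AddGroup.rank_pos _
  rw [← hs] at hrk
  obtain ⟨W0, hW1, hW2, hW3⟩ := exists_gens H
  have hrH : AddGroup.rank H ≤ h - 1 := by
    rw [← hW1]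
    have := Fintype.ofFinite H
    have h1 : W0 ⊆ univ.erase 0 := by
      intro x hx
      rw [Finset.mem_erase]
      exact ⟨fun h0 => hW3 (h0 ▸ hx), Finset.mem_univ _⟩
    have h2 := Finset.card_le_card h1
    rw [Finset.card_erase_of_mem (Finset.mem_univ _), Finset.card_univ,
      ← Nat.card_eq_fintype_card, ← hh] at h2
    exact h2
  have hr1 : s ≤ r := by rw [hr]; exact le_max_left _ _
  have hr2 : m + 1 - h ≤ r := by rw [hr]; exact le_max_right _ _
  have hr3 : r = s ∨ r = m + 1 - h := by rw [hr]; exact max_choice _ _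
  have hrm : AddGroup.rank H ≤ m - r := by omega
  have hrm2 : r ≤ m := by omega
  have hmr : m - r ≤ h - 1 := by omega
  have hrs : r - s + 1 ≤ h := by omega
  -- the part in `H`
  obtain ⟨HF, hHF⟩ : ∃ HF : Finset G, HF = univ.filter (fun x => x ∈ H) := ⟨_, rfl⟩
  have hHFc : HF.card = h := by
    rw [hh, Nat.card_eq_fintype_card, Fintype.card_subtype, hHF]
  have hHFmem : ∀ x, x ∈ HF ↔ x ∈ H := by intro x; rw [hHF]; simp
  obtain ⟨W, hWd⟩ : ∃ W : Finset G, W = W0.image (fun x : H => (x : G)) := ⟨_, rfl⟩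
  have hWsub : W ⊆ HF.erase 0 := by
    intro x hx
    rw [hWd, Finset.mem_image] at hx
    obtain ⟨y, hy, rfl⟩ := hx
    rw [Finset.mem_erase, hHFmem]
    refine ⟨fun h0 => hW3 ?_, y.2⟩
    have : y = 0 := Subtype.ext h0
    rwa [this] at hy
  have hHFe : (HF.erase 0).card = h - 1 := by
    rw [Finset.card_erase_of_mem ((hHFmem 0).2 H.zero_mem), hHFc]
  obtain ⟨A0, hA01, hA02, hA03⟩ := Finset.exists_subsuperset_card_eq (n := m - r) hWsub
    (by rw [hWd]; exact Finset.card_image_le.trans (hW1 ▸ hrm)) (by rw [hHFe]; exact hmr)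
  -- generators of the quotient
  obtain ⟨S, hS1, hS2, hS3⟩ := exists_gens (G ⧸ H)
  rw [← hs] at hS1
  obtain ⟨x1, hx1⟩ : S.Nonempty := by rw [← Finset.card_pos]; omega
  obtain ⟨π, hπ⟩ : ∃ π : G →+ G ⧸ H, π = QuotientAddGroup.mk' H := ⟨_, rfl⟩
  have hπs : Function.Surjective π := by rw [hπ]; exact QuotientAddGroup.mk'_surjective H
  have hπker : ∀ x, π x = 0 ↔ x ∈ H := by
    intro x
    rw [hπ, QuotientAddGroup.mk'_apply, QuotientAddGroup.eq_zero_iff]
  choose g hg using hπs
  obtain ⟨F1, hF1⟩ : ∃ F1 : Finset G, F1 = univ.filter (fun x : G => π x = x1) := ⟨_, rfl⟩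
  have hF1c : F1.card = h := by rw [hF1, hh, hπ]; exact fiber_card H x1
  have hgF1 : ({g x1} : Finset G) ⊆ F1 := by
    rw [Finset.singleton_subset_iff, hF1, Finset.mem_filter]
    exact ⟨Finset.mem_univ _, hg x1⟩
  obtain ⟨A1, hA11, hA12, hA13⟩ := Finset.exists_subsuperset_card_eq (n := r - s + 1) hgF1
    (by rw [Finset.card_singleton]; omega) (by rw [hF1c]; exact hrs)
  obtain ⟨A2, hA2⟩ : ∃ A2 : Finset G, A2 = (S.erase x1).image g := ⟨_, rfl⟩
  have hginj : Function.Injective g := by
    intro a b hab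
    rw [← hg a, ← hg b, hab]
  have hA2c : A2.card = s - 1 := by
    rw [hA2, Finset.card_image_of_injective _ hginj, Finset.card_erase_of_mem hx1, hS1]
  have hπ0 : ∀ x ∈ A0, π x = 0 := by
    intro x hx
    rw [hπker, ← hHFmem]
    exact Finset.mem_of_mem_erase (hA02 hx)
  have hπ1 : ∀ x ∈ A1, π x = x1 := by
    intro x hx
    have := hA12 hx
    rw [hF1, Finset.mem_filter] at this
    exact this.2
  have hπ2 : ∀ x ∈ A2, π x ∈ S.erase x1 := by
    intro x hx
    rw [hA2, Finset.mem_image] at hx
    obtain ⟨y, hy, rfl⟩ := hx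
    rw [hg]; exact hy
  have hx10 : x1 ≠ 0 := fun h0 => hS3 (h0 ▸ hx1)
  have hd12 : Disjoint A1 A2 := by
    rw [Finset.disjoint_left]
    intro x h1 h2
    have := hπ2 x h2
    rw [hπ1 x h1] at this
    exact (Finset.mem_erase.1 this).1 rfl
  have hd0 : Disjoint A0 (A1 ∪ A2) := by
    rw [Finset.disjoint_left]
    intro x h1 h2
    have e0 := hπ0 x h1
    rw [Finset.mem_union] at h2
    rcases h2 with h2 | h2
    · rw [hπ1 x h2] at e0
      exact hx10 e0
    · have h3 := hπ2 x h2
      rw [e0] at h3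
      exact hS3 (Finset.mem_of_mem_erase h3)
  refine ⟨A0 ∪ (A1 ∪ A2), ?_, ?_, ?_, ?_⟩
  · rw [Finset.card_union_of_disjoint hd0, Finset.card_union_of_disjoint hd12, hA03, hA13, hA2c]
    omega
  · intro h0
    rw [Finset.mem_union, Finset.mem_union] at h0
    rcases h0 with h0 | h0 | h0
    · exact (Finset.mem_erase.1 (hA02 h0)).1 rfl
    · have := hπ1 0 h0
      rw [map_zero] at this
      exact hx10 this.symm
    · have := hπ2 0 h0
      rw [map_zero] at this
      exact hS3 (Finset.mem_of_mem_erase this)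
  · -- generation
    obtain ⟨C, hC⟩ : ∃ C, C = AddSubgroup.closure ((A0 ∪ (A1 ∪ A2) : Finset G) : Set G) := ⟨_, rfl⟩
    rw [← hC]
    have hHC : H ≤ C := by
      have h1 : AddSubgroup.closure ((fun x : H => (x : G)) '' (W0 : Set H)) = H := by
        have h2 : (AddSubgroup.closure (W0 : Set H)).map H.subtype =
            AddSubgroup.closure (H.subtype '' (W0 : Set H)) := AddMonoidHom.map_closure _ _
        rw [hW2, ← AddMonoidHom.range_eq_map, AddSubgroup.range_subtype] at h2
        exact h2.symm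
      rw [← h1, AddSubgroup.closure_le]
      rintro _ ⟨x, hx, rfl⟩
      rw [hC]
      apply AddSubgroup.subset_closure
      rw [Finset.mem_coe, Finset.mem_union]
      left
      apply hA01
      rw [hWd]
      exact Finset.mem_image_of_mem _ hx
    have hSC : ∀ x ∈ S, g x ∈ C := by
      intro x hx
      rw [hC]
      apply AddSubgroup.subset_closure
      rw [Finset.mem_coe, Finset.mem_union, Finset.mem_union]
      right
      by_cases hxx : x = x1
      · left
        rw [hxx]
        exact hA11 (Finset.mem_singleton_self _)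
      · right
        rw [hA2]
        exact Finset.mem_image_of_mem _ (Finset.mem_erase.2 ⟨hxx, hx⟩)
    have hmap : C.map π = ⊤ := by
      rw [eq_top_iff, ← hS2, AddSubgroup.closure_le]
      intro x hx
      exact ⟨g x, hSC x hx, hg x⟩
    rw [eq_top_iff]
    intro x _
    have hx : π x ∈ C.map π := by rw [hmap]; trivial
    obtain ⟨y, hy, hyx⟩ := hx
    have h1 : x - y ∈ H := by
      rw [← hπker, map_sub, hyx, sub_self]
    have h2 : x = y + (x - y) := by abel
    rw [h2]
    exact C.add_mem hy (hHC h1)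
  · -- counting
    obtain ⟨A, hAd⟩ : ∃ A, A = A0 ∪ (A1 ∪ A2) := ⟨_, rfl⟩
    rw [← hAd]
    have hsub : A.subsetSum.image π ⊆
        ((Finset.range (r - s + 2)) ×ˢ (S.erase x1).powerset).image
          (fun p => p.1 • x1 + ∑ y ∈ p.2, y) := by
      intro y hy
      rw [Finset.mem_image] at hy
      obtain ⟨x, hx, rfl⟩ := hy
      rw [Finset.mem_subsetSum_iff] at hx
      obtain ⟨B, hB, rfl⟩ := hx
      rw [Finset.mem_image]
      refine ⟨((B ∩ A1).card, (B ∩ A2).image π), ?_, ?_⟩
      · rw [Finset.mem_product, Finset.mem_range, Finset.mem_powerset]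
        constructor
        · have := Finset.card_le_card (Finset.inter_subset_right (s₁ := B) (s₂ := A1))
          simp only
          omega
        · intro z hz
          simp only at hz
          rw [Finset.mem_image] at hz
          obtain ⟨w, hw, rfl⟩ := hz
          exact hπ2 w (Finset.mem_inter.1 hw).2
      · simp only
        have hB2 : B = (B ∩ A0) ∪ ((B ∩ A1) ∪ (B ∩ A2)) := by
          rw [← Finset.inter_union_distrib_left, ← Finset.inter_union_distrib_left, ← hAd]
          exact (Finset.inter_eq_left.2 hB).symm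
        have e1 : π (∑ b ∈ B, b) = ∑ b ∈ B ∩ A0, π b + (∑ b ∈ B ∩ A1, π b + ∑ b ∈ B ∩ A2, π b) := by
          rw [map_sum]
          conv_lhs => rw [hB2]
          rw [Finset.sum_union, Finset.sum_union]
          · exact Finset.disjoint_of_subset_left Finset.inter_subset_right
              (Finset.disjoint_of_subset_right Finset.inter_subset_right hd12)
          · rw [← Finset.inter_union_distrib_left]
            exact Finset.disjoint_of_subset_left Finset.inter_subset_right
              (Finset.disjoint_of_subset_right Finset.inter_subset_right hd0)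
        rw [e1]
        have e2 : ∑ b ∈ B ∩ A0, π b = 0 :=
          Finset.sum_eq_zero fun b hb => hπ0 b (Finset.mem_inter.1 hb).2
        have e3 : ∑ b ∈ B ∩ A1, π b = (B ∩ A1).card • x1 := by
          rw [Finset.sum_congr rfl (fun b hb => hπ1 b (Finset.mem_inter.1 hb).2),
            Finset.sum_const]
        have e4 : ∑ y ∈ (B ∩ A2).image π, y = ∑ b ∈ B ∩ A2, π b := by
          rw [Finset.sum_image]
          intro a ha b hb hab
          rw [Finset.mem_coe, Finset.mem_inter, hA2, Finset.mem_image] at ha hb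
          obtain ⟨-, u, -, rfl⟩ := ha
          obtain ⟨-, v, -, rfl⟩ := hb
          rw [hg, hg] at hab
          rw [hab]
        rw [e2, e3, e4, zero_add]
    have h1 : (A.subsetSum.image π).card ≤ (r - s + 2) * 2 ^ (s - 1) := by
      refine (Finset.card_le_card hsub).trans (Finset.card_image_le.trans ?_)
      rw [Finset.card_product, Finset.card_range, Finset.card_powerset,
        Finset.card_erase_of_mem hx1, hS1]
    have h2 : A.subsetSum.card ≤ h * (A.subsetSum.image π).card := by
      apply Finset.card_le_mul_card_image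
      intro y _
      have h3 : (univ.filter (fun x : G => π x = y)).card = h := by
        rw [hh, hπ]; exact fiber_card H y
      rw [← h3]
      exact Finset.card_le_card (Finset.filter_subset_filter _ (Finset.subset_univ _))
    unfold term
    rw [← hs, ← hh, ← hr]
    calc A.subsetSum.card ≤ h * ((r - s + 2) * 2 ^ (s - 1)) :=
          h2.trans (Nat.mul_le_mul_left _ h1)
      _ = h * 2 ^ (s - 1) * (r - s + 2) := by ring

end Pool.Agent.U358.ZG
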