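import Mathlib
import Pool.Agent.U358.ZG.Upper
import Pool.Agent.Helper398.Cyclic

set_option autoImplicit false
set_option linter.unusedSectionVars false

namespace Pool.Agent.U358.ZG

open Finset
open scoped Pointwise
open Pool.Agent.Helper398

/-- a periodic set is a union of full cosets -/
theorem card_of_periodic {G : Type*} [AddCommGroup G] [Fintype G] [DecidableEq G]
    (H : AddSubgroup G) [DecidableEq (G ⧸ H)] (S : Finset G)
    (hS : ∀ k ∈ H, ∀ x ∈ S, k + x ∈ S) :
    Nat.card H * (S.image (QuotientAddGroup.mk' H)).card ≤ S.card := by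
  classical
  have h1 : S.card = ∑ y ∈ S.image (QuotientAddGroup.mk' H),
      (S.filter (fun x => QuotientAddGroup.mk' H x = y)).card :=
    Finset.card_eq_sum_card_fiberwise (fun x hx =>
      Finset.mem_coe.2 (Finset.mem_image_of_mem _ (Finset.mem_coe.1 hx)))
  rw [h1, mul_comm, ← smul_eq_mul, ← Finset.sum_const]
  apply Finset.sum_le_sum
  intro y hy
  rw [Finset.mem_image] at hy
  obtain ⟨x0, hx0, rfl⟩ := hy
  rw [← fiber_card H (QuotientAddGroup.mk' H x0)]
  apply Finset.card_le_card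
  intro x hx
  rw [Finset.mem_filter] at hx ⊢
  refine ⟨?_, hx.2⟩
  have h2 := hx.2
  rw [QuotientAddGroup.mk'_apply, QuotientAddGroup.mk'_apply, eq_comm, QuotientAddGroup.eq] at h2
  have h3 := hS _ h2 x0 hx0
  have e : -x0 + x + x0 = x := by abel
  rwa [e] at h3

/-- the case of a large stabiliser -/
theorem lower_of_stab {G : Type*} [AddCommGroup G] [Fintype G] [DecidableEq G] (m : ℕ)
    (A : Finset G) (hAm : A.card = m) (hA0 : (0 : G) ∉ A)
    (hgen : AddSubgroup.closure (A : Set G) = ⊤)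
    (H : AddSubgroup G) (hH : H ≠ ⊤) (hper : ∀ k ∈ H, ∀ x ∈ A.subsetSum, k + x ∈ A.subsetSum)
    (hmH : m < 2 * Nat.card H) :
    Fintype.card G ≤ A.subsetSum.card ∨
      ∃ H' : AddSubgroup G, H' ≠ ⊤ ∧ m < 2 * Nat.card H' ∧ term m H' ≤ A.subsetSum.card := by
  classical
  obtain ⟨h, hh⟩ : ∃ h, h = Nat.card H := ⟨_, rfl⟩
  have hh1 : 1 ≤ h := by rw [hh]; exact Nat.card_pos
  obtain ⟨J, hJ⟩ : ∃ J, J = A.filter (fun x => x ∉ H) := ⟨_, rfl⟩
  obtain ⟨f, hf⟩ : ∃ f : G → G ⧸ H, f = fun x => QuotientAddGroup.mk' H x := ⟨_, rfl⟩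
  have hfz : ∀ x, f x = 0 ↔ x ∈ H := by
    intro x
    rw [hf]
    simp only
    rw [QuotientAddGroup.mk'_apply, QuotientAddGroup.eq_zero_iff]
  have hJ0 : ∀ i ∈ J, f i ≠ 0 := by
    intro i hi
    rw [hJ, Finset.mem_filter] at hi
    rw [Ne, hfz]
    exact hi.2
  have hgenJ : AddSubgroup.closure (f '' (J : Set G)) = ⊤ := by
    have h1 : AddSubgroup.closure (f '' (A : Set G)) = ⊤ := by
      have h2 : f '' (A : Set G) = (QuotientAddGroup.mk' H) '' (A : Set G) := by rw [hf]
      rw [h2, ← AddMonoidHom.map_closure, hgen, ← AddMonoidHom.range_eq_map,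
        AddMonoidHom.range_eq_top]
      exact QuotientAddGroup.mk'_surjective H
    rw [eq_top_iff, ← h1, AddSubgroup.closure_le]
    rintro _ ⟨x, hx, rfl⟩
    by_cases hxH : x ∈ H
    · rw [SetLike.mem_coe, (hfz x).2 hxH]
      exact AddSubgroup.zero_mem _
    · apply AddSubgroup.subset_closure
      refine ⟨x, ?_, rfl⟩
      rw [hJ, Finset.coe_filter]
      exact ⟨hx, hxH⟩
  have hnt : Nontrivial (G ⧸ H) := by
    rw [← not_subsingleton_iff_nontrivial]
    intro hsub
    apply hH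
    rw [← AddSubgroup.index_eq_one, AddSubgroup.index_eq_card]
    exact Nat.card_unique
  have hSS : (SS f J).card ≤ (A.subsetSum.image (QuotientAddGroup.mk' H)).card := by
    apply Finset.card_le_card
    intro y hy
    rw [mem_SS] at hy
    obtain ⟨I, hI, rfl⟩ := hy
    rw [Finset.mem_image]
    refine ⟨∑ i ∈ I, i, ?_, ?_⟩
    · rw [Finset.mem_subsetSum_iff]
      refine ⟨I, hI.trans ?_, rfl⟩
      rw [hJ]
      exact Finset.filter_subset _ _
    · rw [map_sum, hf]
  have hcard := card_of_periodic H A.subsetSum hper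
  rw [← hh] at hcard
  have hmain : h * (SS f J).card ≤ A.subsetSum.card :=
    (Nat.mul_le_mul_left _ hSS).trans hcard
  have hcA : A.card ≤ J.card + (h - 1) := by
    have h1 := Finset.card_filter_add_card_filter_not (s := A) (fun x => x ∉ H)
    have h2 : (A.filter (fun x => ¬ x ∉ H)).card ≤ h - 1 := by
      have h3 : A.filter (fun x => ¬ x ∉ H) ⊆ (univ.filter (fun x => x ∈ H)).erase 0 := by
        intro x hx
        rw [Finset.mem_filter, not_not] at hx
        rw [Finset.mem_erase, Finset.mem_filter]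
        exact ⟨fun h0 => hA0 (h0 ▸ hx.1), Finset.mem_univ _, hx.2⟩
      have h4 := Finset.card_le_card h3
      rw [Finset.card_erase_of_mem (by
        rw [Finset.mem_filter]; exact ⟨Finset.mem_univ _, H.zero_mem⟩)] at h4
      have h5 : (univ.filter (fun x => x ∈ H)).card = h := by
        rw [hh, Nat.card_eq_fintype_card, Fintype.card_subtype]
      rwa [h5] at h4
    rw [hJ]
    omega
  rcases core f J hnt hJ0 hgenJ with ⟨K, hK, hbig⟩ | ⟨hr1, hr2⟩
  · -- a larger subgroup
    obtain ⟨φ, hφ⟩ : ∃ φ : G →+ (G ⧸ H) ⧸ K, φ = (QuotientAddGroup.mk' K).comp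
      (QuotientAddGroup.mk' H) := ⟨_, rfl⟩
    have hφs : Function.Surjective φ := by
      rw [hφ]
      exact (QuotientAddGroup.mk'_surjective K).comp (QuotientAddGroup.mk'_surjective H)
    obtain ⟨K', hK'⟩ : ∃ K' : AddSubgroup G, K' = φ.ker := ⟨_, rfl⟩
    have hrank : AddGroup.rank (G ⧸ K') = AddGroup.rank ((G ⧸ H) ⧸ K) := by
      subst hK'
      exact AddGroup.rank_congr (QuotientAddGroup.quotientKerEquivOfSurjective φ hφs)
    have hcq : Nat.card (G ⧸ K') = Nat.card ((G ⧸ H) ⧸ K) := by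
      subst hK'
      exact Nat.card_congr (QuotientAddGroup.quotientKerEquivOfSurjective φ hφs).toEquiv
    have e1 := AddSubgroup.card_eq_card_quotient_mul_card_addSubgroup K'
    have e2 := AddSubgroup.card_eq_card_quotient_mul_card_addSubgroup K
    have e3 := AddSubgroup.card_eq_card_quotient_mul_card_addSubgroup H
    rw [hcq] at e1
    have hcK : Nat.card K' = h * Nat.card K := by
      have hpos : 0 < Nat.card ((G ⧸ H) ⧸ K) := Nat.card_pos
      apply Nat.eq_of_mul_eq_mul_left hpos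
      rw [← e1, e3, e2, ← hh]
      ring
    have hKc : 2 ≤ Nat.card K := by
      have h1 : Nat.card K ≠ 1 := fun h => hK ((AddSubgroup.card_eq_one).1 h)
      have h2 : 0 < Nat.card K := Nat.card_pos
      omega
    have hval : 2 ^ AddGroup.rank (G ⧸ K') * Nat.card K' ≤ A.subsetSum.card := by
      rw [hrank, hcK]
      calc 2 ^ AddGroup.rank ((G ⧸ H) ⧸ K) * (h * Nat.card K)
          = h * (2 ^ AddGroup.rank ((G ⧸ H) ⧸ K) * Nat.card K) := by ring
        _ ≤ h * (SS f J).card := Nat.mul_le_mul_left _ hbig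
        _ ≤ _ := hmain
    have hK2 : 2 * h ≤ Nat.card K' := by
      rw [hcK, mul_comm 2 h]
      exact Nat.mul_le_mul_left _ hKc
    by_cases htop : K' = ⊤
    · left
      have h1 : Nat.card K' = Fintype.card G := by
        rw [htop, AddSubgroup.card_top, Nat.card_eq_fintype_card]
      rw [h1] at hval
      exact (Nat.le_mul_of_pos_left _ (by positivity)).trans hval
    · right
      refine ⟨K', htop, by omega, ?_⟩
      have hs1 : 1 ≤ AddGroup.rank (G ⧸ K') := by
        have : Nontrivial (G ⧸ K') := by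
          rw [← not_subsingleton_iff_nontrivial]
          intro hsub
          apply htop
          rw [← AddSubgroup.index_eq_one, AddSubgroup.index_eq_card]
          exact Nat.card_unique
        exact AddGroup.rank_pos _
      unfold term
      have h2 : m + 1 - Nat.card K' = 0 := by omega
      rw [h2, Nat.max_eq_left (Nat.zero_le _), Nat.sub_self, zero_add]
      have h3 : Nat.card K' * 2 ^ (AddGroup.rank (G ⧸ K') - 1) * 2 =
          2 ^ AddGroup.rank (G ⧸ K') * Nat.card K' := by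
        obtain ⟨u, hu⟩ : ∃ u, AddGroup.rank (G ⧸ K') = u + 1 :=
          ⟨AddGroup.rank (G ⧸ K') - 1, by omega⟩
        rw [hu, Nat.add_sub_cancel]
        ring
      rw [h3]
      exact hval
  · right
    refine ⟨H, hH, hmH, ?_⟩
    unfold term
    rw [← hh]
    refine le_trans ?_ hmain
    rw [mul_assoc]
    apply Nat.mul_le_mul_left
    refine le_trans ?_ hr2
    apply Nat.mul_le_mul_left
    have h1 : max (AddGroup.rank (G ⧸ H)) (m + 1 - h) ≤ J.card := by
      apply max_le hr1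
      omega
    omega

theorem lower (ε : ℝ) (hε : 0 < ε) : ∃ M : ℕ, ∀ (G : Type) [AddCommGroup G] [Fintype G]
    [DecidableEq G], ∀ m : ℕ, M ≤ m → ∀ A : Finset G, A.card = m →
    (0 : G) ∉ A → AddSubgroup.closure (A : Set G) = ⊤ →
    (4 / 25 - ε) * (m : ℝ) ^ 2 ≤ A.subsetSum.card ∨ Fintype.card G ≤ A.subsetSum.card ∨
      ∃ H' : AddSubgroup G, H' ≠ ⊤ ∧ m < 2 * Nat.card H' ∧ term m H' ≤ A.subsetSum.card := by
  obtain ⟨η, hη⟩ : ∃ η : ℝ, η = min ε (1 / 8) := ⟨_, rfl⟩
  have hη0 : 0 < η := by rw [hη]; exact lt_min hε (by norm_num)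
  have hηε : η ≤ ε := by rw [hη]; exact min_le_left _ _
  have hη4 : η < 1 / 4 := by
    have : η ≤ 1 / 8 := by rw [hη]; exact min_le_right _ _
    linarith
  have hβ : 0 ≤ bet' η := by unfold bet' thr'; positivity
  obtain ⟨M, hM⟩ := exists_nat_ge (25 * bet' η / (9 * ε))
  refine ⟨M, ?_⟩
  intro G _ _ _ m hMm A hAm hA0 hgen
  classical
  obtain ⟨H, hHd⟩ : ∃ H, H = stab A.subsetSum := ⟨_, rfl⟩
  obtain ⟨HF, hHFd⟩ : ∃ HF : Finset G, HF = univ.filter (fun x => x ∈ stab A.subsetSum) := ⟨_, rfl⟩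
  have hHF : ∀ x, x ∈ HF ↔ x ∈ stab A.subsetSum := by
    intro x; rw [hHFd]; simp
  have hHFc : HF.card = Nat.card H := by
    rw [hHd, Nat.card_eq_fintype_card, Fintype.card_subtype, hHFd]
  have hper : ∀ k ∈ H, ∀ x ∈ A.subsetSum, k + x ∈ A.subsetSum := by
    intro k hk x hx
    rw [hHd, mem_stab] at hk
    rw [← hk]
    exact Finset.mem_vadd_finset.2 ⟨x, hx, rfl⟩
  by_cases hH : H = ⊤
  · right; left
    rw [← Finset.card_univ]
    apply Finset.card_le_card
    intro x _
    have hx : x ∈ H := by rw [hH]; trivial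
    have := hper x hx 0 Finset.zero_mem_subsetSum
    simpa using this
  by_cases hmH : m < 2 * Nat.card H
  · exact Or.inr (lower_of_stab m A hAm hA0 hgen H hH hper hmH)
  · left
    push Not at hmH
    obtain ⟨h, hh⟩ : ∃ h, h = Nat.card H := ⟨_, rfl⟩
    obtain ⟨r, hr⟩ : ∃ r, r = (A \ HF).card := ⟨_, rfl⟩
    have hcc := coset_count A HF hHF
    rw [hHFc, ← hh, ← hr] at hcc
    rw [← hh] at hmH
    have hHF0 : (0 : G) ∈ HF := (hHF 0).2 (AddSubgroup.zero_mem _)
    have hmr : m + 1 ≤ r + h := by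
      have h2 : insert 0 (A ∩ HF) ⊆ HF := by
        intro x hx
        rw [Finset.mem_insert, Finset.mem_inter] at hx
        rcases hx with rfl | h
        · exact hHF0
        · exact h.2
      have h3 := Finset.card_le_card h2
      rw [Finset.card_insert_of_notMem (fun h => hA0 (Finset.mem_inter.1 h).1)] at h3
      have h4 := Finset.card_inter_add_card_sdiff A HF
      rw [hr, hh, ← hHFc]
      omega
    have hrm : r ≤ m := by
      rw [hr, ← hAm]
      exact Finset.card_le_card Finset.sdiff_subset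
    have hm0 : (0 : ℝ) ≤ m := Nat.cast_nonneg _
    by_cases hcase : m ≤ 5 * h
    · -- h (m + 2 - h) ≥ (4/25) m²
      have h1 : (m : ℝ) + 1 ≤ r + h := by exact_mod_cast hmr
      have h2 : (2 : ℝ) * h ≤ m := by exact_mod_cast hmH
      have h3 : (m : ℝ) ≤ 5 * h := by exact_mod_cast hcase
      have h4 : (h : ℝ) * (r + 1) ≤ A.subsetSum.card := by exact_mod_cast hcc
      have h0 : (0 : ℝ) ≤ h := Nat.cast_nonneg _
      have h5 : (h : ℝ) * (m - h) ≤ h * (r + 1) := by
        apply mul_le_mul_of_nonneg_left _ h0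
        linarith
      have h6 : (4 / 25 : ℝ) * (m : ℝ) ^ 2 ≤ h * (m - h) := by nlinarith
      have h7 : (4 / 25 - ε) * (m : ℝ) ^ 2 ≤ (4 / 25 : ℝ) * (m : ℝ) ^ 2 := by nlinarith
      linarith
    · push Not at hcase
      have h1 : (m : ℝ) + 1 ≤ r + h := by exact_mod_cast hmr
      have h3 : (5 : ℝ) * h ≤ m := by exact_mod_cast hcase.le
      have h4 : (4 / 5 : ℝ) * m ≤ r := by linarith
      have hrm' : (r : ℝ) ≤ m := by exact_mod_cast hrm
      have h6 := lower_gen η hη0 hη4 (A \ HF) (NS_outside A HF hHF)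
      rw [← hr] at h6
      have h7 : ((A \ HF).subsetSum.card : ℝ) ≤ A.subsetSum.card := by
        exact_mod_cast Finset.card_le_card (Finset.subsetSum_mono Finset.sdiff_subset)
      have hMm' : (M : ℝ) ≤ m := by exact_mod_cast hMm
      have h8 : 25 * bet' η / (9 * ε) ≤ m := hM.trans hMm'
      rw [div_le_iff₀ (by positivity)] at h8
      have h9 : bet' η * r ≤ bet' η * m := mul_le_mul_of_nonneg_left hrm' hβ
      have h10 : bet' η * m ≤ 9 / 25 * ε * (m : ℝ) ^ 2 := by nlinarith
      have h11 : (4 / 5 * (m : ℝ)) ^ 2 ≤ (r : ℝ) ^ 2 := pow_le_pow_left₀ (by positivity) h4 2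
      have h12 : (1 / 4 - η) * (4 / 5 * (m : ℝ)) ^ 2 ≤ (1 / 4 - η) * (r : ℝ) ^ 2 :=
        mul_le_mul_of_nonneg_left h11 (by linarith)
      have h13 : (1 / 4 - η) * (4 / 5 * (m : ℝ)) ^ 2 =
          (4 / 25) * (m : ℝ) ^ 2 - 16 / 25 * (η * (m : ℝ) ^ 2) := by ring
      have h14 : η * (m : ℝ) ^ 2 ≤ ε * (m : ℝ) ^ 2 := mul_le_mul_of_nonneg_right hηε (by positivity)
      nlinarith

end Pool.Agent.U358.ZG
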